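import Pool.Agent.SCG.Defs
import Pool.Agent.PT.Gen

/-!
# The algorithm, and its polynomial running time
-/

set_option autoImplicit false

namespace Pool.Agent.SCG

open Pool.Agent.PT

/-- Membership in a list. -/
def memL {α : Type} [DecidableEq α] (S : List α) (s : α) : Bool := S.any (fun t => decide (t = s))

/-- Iterate `S ↦ {s ∈ U | F S s}` until it is stable. -/
def iter {α : Type} (U : List α) (F : List α → α → Bool) (S : List α) : List α :=
  U.foldl (fun S _ => U.filter (fun s => F S s)) (U.filter (fun s => F S s))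

/-- Adjacency matrices as lists of rows. -/
abbrev Rows : Type := List (List Bool)

/-- Entry of a matrix. -/
def adjB (M : Rows) (i j : ℕ) : Bool := (M.getD i []).getD j false

/-- Vertices. -/
def vts (M : Rows) : List ℕ := List.range M.length

/-- Ordered pairs of vertices. -/
def prs (M : Rows) : List (ℕ × ℕ) := (vts M).flatMap (fun i => (vts M).map (fun j => (i, j)))

/-- The forcing relation. -/
def gamB (M : Rows) (p q : ℕ × ℕ) : Bool :=
  adjB M p.1 q.2 && !(adjB M p.2 q.2) && adjB M p.2 q.1 && !(adjB M p.1 q.1)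

/-- Incomparable neighbourhoods. -/
def hpB (M : Rows) (p : ℕ × ℕ) : Bool :=
  (vts M).any (fun c => adjB M p.1 c && !(adjB M p.2 c)) &&
    (vts M).any (fun d => adjB M p.2 d && !(adjB M p.1 d))

/-- One closure step. -/
def clB (M : Rows) (P : List (ℕ × ℕ)) (p : ℕ × ℕ) : Bool :=
  memL P p || (vts M).any (fun c => memL P (p.1, c) && memL P (c, p.2)) ||
    P.any (fun q => gamB M q p)

/-- Irreflexive. -/
def irrB (M : Rows) (P : List (ℕ × ℕ)) : Bool := (vts M).all (fun v => !(memL P (v, v)))

/-- Add the decision `p` if possible. -/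
def addB (M : Rows) (P : List (ℕ × ℕ)) (p : ℕ × ℕ) : List (ℕ × ℕ) :=
  cond (hpB M p && irrB M (iter (prs M) (clB M) (p :: P))) (iter (prs M) (clB M) (p :: P)) P

/-- All decisions. -/
def decs (M : Rows) : List (ℕ × ℕ) := (prs M).foldl (addB M) []

/-- Number of predecessors. -/
def key (M : Rows) (P : List (ℕ × ℕ)) (v : ℕ) : ℕ := (vts M).countP (fun u => memL P (u, v))

/-- The vertices in order. -/
def ordL (M : Rows) : List ℕ :=
  (vts M).flatMap (fun k => (vts M).filter (fun v => decide (key M (decs M) v = k)))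

/-- The reordered matrix. -/
def reB (M : Rows) (O : List ℕ) : Rows := O.map (fun i => O.map (fun j => adjB M i j))

/-- The check that there is no `I₂`. -/
def i2B (M : Rows) : Bool :=
  (vts M).all (fun i => (vts M).all (fun j => (vts M).all (fun k => (vts M).all (fun l =>
    !(decide (i < j) && decide (k < l) && adjB M i k && adjB M j l && !(adjB M i l) &&
      !(adjB M j k))))))

/-- States of the search: `m, q, r, c, a, b`. -/
abbrev Sta : Type := ℕ × ℕ × ℕ × ℕ × ℕ × ℕ

/-- All states with entries in the given list. -/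
def allSta (N : List ℕ) : List Sta :=
  N.flatMap (fun m => N.flatMap (fun q => N.flatMap (fun r => N.flatMap (fun c =>
    N.flatMap (fun a => N.map (fun b => (m, q, r, c, a, b)))))))

/-- Dominated by a register. -/
def hitB (M : Rows) (m a b v : ℕ) : Bool :=
  decide (v = m) || decide (v = a) || decide (v = b) || adjB M v m || adjB M v a || adjB M v b

/-- Initial states. -/
def startB (n : ℕ) (t : Sta) : Bool :=
  ((decide (t.1 = n) && decide (t.2.1 = 0)) || (decide (t.1 < n) && decide (t.2.1 = 1))) &&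
    decide (t.2.2.1 = 0) && decide (t.2.2.2.1 = 0) && decide (t.2.2.2.2.1 = n) &&
    decide (t.2.2.2.2.2 = n)

/-- One step of the search. -/
def stepB (M : Rows) (s t : Sta) : Bool :=
  decide (t.1 = s.1) &&
  ((decide (t.2.1 = s.2.1 + 1) && decide (t.2.2.1 = s.2.2.1) && decide (t.2.2.2.1 = s.2.2.2.1) &&
      decide (t.2.2.2.2.1 < M.length) && decide (t.2.2.2.2.2 = s.2.2.2.2.2)) ||
   (decide (t.2.1 = s.2.1 + 1) && decide (t.2.2.1 = s.2.2.1) && decide (t.2.2.2.1 = s.2.2.2.1) &&
      decide (t.2.2.2.2.1 = s.2.2.2.2.1) && decide (t.2.2.2.2.2 < M.length)) ||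
   (decide (s.2.2.1 + s.2.2.2.1 < M.length) && decide (t.2.2.1 = s.2.2.1 + 1) &&
      decide (t.2.2.2.1 = s.2.2.2.1) && decide (t.2.2.2.2.1 = s.2.2.2.2.1) &&
      decide (t.2.2.2.2.2 = s.2.2.2.2.2) &&
      ((decide (t.2.1 = s.2.1) && hitB M s.1 s.2.2.2.2.1 s.2.2.2.2.2 s.2.2.1) ||
        decide (t.2.1 = s.2.1 + 1))) ||
   (decide (s.2.2.1 + s.2.2.2.1 < M.length) && decide (t.2.2.1 = s.2.2.1) &&
      decide (t.2.2.2.1 = s.2.2.2.1 + 1) && decide (t.2.2.2.2.1 = s.2.2.2.2.1) &&
      decide (t.2.2.2.2.2 = s.2.2.2.2.2) &&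
      ((decide (t.2.1 = s.2.1) && (vts M).any (fun w => decide (w + s.2.2.2.1 + 1 = M.length) &&
        hitB M s.1 s.2.2.2.2.1 s.2.2.2.2.2 w)) || decide (t.2.1 = s.2.1 + 1))))

/-- The closure step of the search. -/
def nextB (M : Rows) (S : List Sta) (t : Sta) : Bool :=
  startB M.length t || memL S t || S.any (fun s => stepB M s t)

/-- All reachable states. -/
def reachL (M : Rows) : List Sta :=
  iter (allSta (List.range (([] : List Bool) :: M).length)) (nextB M) []

/-- The decision procedure for ordered matrices. -/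
def domB (M : Rows) (k : ℕ) : Bool :=
  (reachL M).any (fun s => decide (s.2.2.1 + s.2.2.2.1 = M.length) && decide (s.2.1 ≤ k))

/-- The decision procedure. -/
def algB (q : Rows × ℕ) : Bool := i2B (reB q.1 (ordL q.1)) && domB (reB q.1 (ordL q.1)) q.2

/-! ### Polynomial time -/

section

variable {γ α : Type} [Dat γ] [Dat α] [hC : Fact Core]

@[fun_prop] theorem memL_pt [DecidableEq α] {S : γ → List α} {s : γ → α} (hS : PolyF S)
    (hs : PolyF s) : PolyF (fun x => memL (S x) (s x)) := by
  unfold memL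
  refine PolyF.any ?_ hS
  exact PolyF.eq (by fun_prop) (by fun_prop)

theorem filter_sz (U : List α) (f : α → Bool) : sz (U.filter f) ≤ sz U := by
  induction U with
  | nil => simp
  | cons a l ih =>
    by_cases h : f a = true
    · rw [List.filter_cons_of_pos h, sz_cons, sz_cons]; omega
    · rw [List.filter_cons_of_neg h, sz_cons]; omega

theorem iter_sz (U : List α) (F : List α → α → Bool) (S : List α) : sz (iter U F S) ≤ sz U := by
  have key : ∀ (l : List α) (S : List α), sz S ≤ sz U →
      sz (l.foldl (fun S _ => U.filter (fun s => F S s)) S) ≤ sz U := by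
    intro l
    induction l with
    | nil => intro S hS; exact hS
    | cons a l ih => intro S hS; exact ih _ (filter_sz _ _)
  exact key _ _ (filter_sz _ _)

theorem iter_pt {U : γ → List α} {F : γ → List α → α → Bool} {S : γ → List α} (hU : PolyF U)
    (hF : PolyF (fun p : γ × List α × α => F p.1 p.2.1 p.2.2)) (hS : PolyF S) :
    PolyF (fun x => iter (U x) (F x) (S x)) := by
  unfold iter
  refine PolyF.foldl (f := fun x S _ => (U x).filter (fun s => F x S s)) ?_ ?_ hU
    (fun x => sz (U x)) hU.bound ?_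
  · refine PolyF.filter (f := fun (p : γ × List α × α) s => F p.1 p.2.1 s) ?_ ?_
    · exact PolyF.comp (f := fun p : γ × List α × α => F p.1 p.2.1 p.2.2)
        (g := fun q : (γ × List α × α) × α => (q.1.1, q.1.2.1, q.2)) hF (by fun_prop)
    · exact PolyF.comp (f := U) (g := fun q : γ × List α × α => q.1) hU (by fun_prop)
  · refine PolyF.filter (f := fun x s => F x (S x) s) ?_ hU
    exact PolyF.comp (f := fun p : γ × List α × α => F p.1 p.2.1 p.2.2)
      (g := fun q : γ × α => (q.1, S q.1, q.2)) hF (by fun_prop)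
  · intro x l₁ _
    have key : ∀ (l : List α) (S : List α), sz S ≤ sz (U x) →
        sz (l.foldl (fun S _ => (U x).filter (fun s => F x S s)) S) ≤ sz (U x) := by
      intro l
      induction l with
      | nil => intro S hS; exact hS
      | cons a l ih => intro S hS; exact ih _ (filter_sz _ _)
    exact key _ _ (filter_sz _ _)

@[fun_prop] theorem adjB_pt {M : γ → Rows} {i j : γ → ℕ} (hM : PolyF M) (hi : PolyF i)
    (hj : PolyF j) : PolyF (fun x => adjB (M x) (i x) (j x)) := by
  unfold adjB; fun_prop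

@[fun_prop] theorem vts_pt {M : γ → Rows} (hM : PolyF M) : PolyF (fun x => vts (M x)) := by
  unfold vts; fun_prop

@[fun_prop] theorem prs_pt {M : γ → Rows} (hM : PolyF M) : PolyF (fun x => prs (M x)) := by
  unfold prs; fun_prop

@[fun_prop] theorem gamB_pt {M : γ → Rows} {p q : γ → ℕ × ℕ} (hM : PolyF M) (hp : PolyF p)
    (hq : PolyF q) : PolyF (fun x => gamB (M x) (p x) (q x)) := by
  unfold gamB; fun_prop

@[fun_prop] theorem hpB_pt {M : γ → Rows} {p : γ → ℕ × ℕ} (hM : PolyF M) (hp : PolyF p) :
    PolyF (fun x => hpB (M x) (p x)) := by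
  unfold hpB; fun_prop

@[fun_prop] theorem clB_pt {M : γ → Rows} {P : γ → List (ℕ × ℕ)} {p : γ → ℕ × ℕ} (hM : PolyF M)
    (hP : PolyF P) (hp : PolyF p) : PolyF (fun x => clB (M x) (P x) (p x)) := by
  unfold clB; fun_prop

@[fun_prop] theorem irrB_pt {M : γ → Rows} {P : γ → List (ℕ × ℕ)} (hM : PolyF M)
    (hP : PolyF P) : PolyF (fun x => irrB (M x) (P x)) := by
  unfold irrB; fun_prop

@[fun_prop] theorem addB_pt {M : γ → Rows} {P : γ → List (ℕ × ℕ)} {p : γ → ℕ × ℕ}
    (hM : PolyF M) (hP : PolyF P) (hp : PolyF p) : PolyF (fun x => addB (M x) (P x) (p x)) := by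
  unfold addB
  have h : PolyF (fun x => iter (prs (M x)) (clB (M x)) (p x :: P x)) :=
    iter_pt (F := fun x => clB (M x)) (by fun_prop) (by fun_prop) (by fun_prop)
  fun_prop

@[fun_prop] theorem decs_pt {M : γ → Rows} (hM : PolyF M) : PolyF (fun x => decs (M x)) := by
  unfold decs
  refine PolyF.foldl (f := fun x P p => addB (M x) P p) (by fun_prop) (by fun_prop) (by fun_prop)
    (fun x => sz (prs (M x))) (PolyF.bound (by fun_prop)) ?_
  intro x l₁ _
  have key : ∀ (l : List (ℕ × ℕ)) (P : List (ℕ × ℕ)), sz P ≤ sz (prs (M x)) →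
      sz (l.foldl (fun P p => addB (M x) P p) P) ≤ sz (prs (M x)) := by
    intro l
    induction l with
    | nil => intro S hS; exact hS
    | cons a l ih =>
      intro S hS
      refine ih _ ?_
      show sz (addB (M x) S a) ≤ _
      unfold addB
      cases (hpB (M x) a && irrB (M x) (iter (prs (M x)) (clB (M x)) (a :: S)))
      · exact hS
      · exact iter_sz _ _ _
  refine key _ _ ?_
  have := sz_pos (prs (M x))
  rw [sz_nil]; omega

@[fun_prop] theorem key_pt {M : γ → Rows} {P : γ → List (ℕ × ℕ)} {v : γ → ℕ} (hM : PolyF M)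
    (hP : PolyF P) (hv : PolyF v) : PolyF (fun x => key (M x) (P x) (v x)) := by
  unfold key; fun_prop

@[fun_prop] theorem ordL_pt {M : γ → Rows} (hM : PolyF M) : PolyF (fun x => ordL (M x)) := by
  unfold ordL; fun_prop

@[fun_prop] theorem reB_pt {M : γ → Rows} {O : γ → List ℕ} (hM : PolyF M) (hO : PolyF O) :
    PolyF (fun x => reB (M x) (O x)) := by
  unfold reB; fun_prop

@[fun_prop] theorem i2B_pt {M : γ → Rows} (hM : PolyF M) : PolyF (fun x => i2B (M x)) := by
  unfold i2B; fun_prop

@[fun_prop] theorem allSta_pt {N : γ → List ℕ} (hN : PolyF N) :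
    PolyF (fun x => allSta (N x)) := by
  unfold allSta; fun_prop

@[fun_prop] theorem hitB_pt {M : γ → Rows} {m a b v : γ → ℕ} (hM : PolyF M) (hm : PolyF m)
    (ha : PolyF a) (hb : PolyF b) (hv : PolyF v) :
    PolyF (fun x => hitB (M x) (m x) (a x) (b x) (v x)) := by
  unfold hitB; fun_prop

@[fun_prop] theorem startB_pt {n : γ → ℕ} {t : γ → Sta} (hn : PolyF n) (ht : PolyF t) :
    PolyF (fun x => startB (n x) (t x)) := by
  unfold startB; fun_prop

@[fun_prop] theorem stepB_pt {M : γ → Rows} {s t : γ → Sta} (hM : PolyF M) (hs : PolyF s)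
    (ht : PolyF t) : PolyF (fun x => stepB (M x) (s x) (t x)) := by
  unfold stepB; fun_prop

@[fun_prop] theorem nextB_pt {M : γ → Rows} {S : γ → List Sta} {t : γ → Sta} (hM : PolyF M)
    (hS : PolyF S) (ht : PolyF t) : PolyF (fun x => nextB (M x) (S x) (t x)) := by
  unfold nextB; fun_prop

@[fun_prop] theorem reachL_pt {M : γ → Rows} (hM : PolyF M) : PolyF (fun x => reachL (M x)) := by
  unfold reachL
  exact iter_pt (F := fun x => nextB (M x)) (by fun_prop) (by fun_prop) (by fun_prop)

@[fun_prop] theorem domB_pt {M : γ → Rows} {k : γ → ℕ} (hM : PolyF M) (hk : PolyF k) :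
    PolyF (fun x => domB (M x) (k x)) := by
  unfold domB; fun_prop

theorem algB_pt : PolyF algB := by
  unfold algB; fun_prop

end

end Pool.Agent.SCG
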