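import Pool.Agent.SCG.Defs

/-!
# Completeness of the search: the dominator function and the exchange
-/

set_option autoImplicit false

open Finset

namespace Pool.Agent.SCG

namespace Comp

/-- `v` has a neighbour in `D`. -/
def X (A : ℕ → ℕ → Prop) (D : Finset ℕ) (v : ℕ) : Prop := ∃ u ∈ D, A v u

/-- `i` is an isolated vertex of `D`. -/
def Iso (A : ℕ → ℕ → Prop) (D : Finset ℕ) (i : ℕ) : Prop := i ∈ D ∧ ¬ X A D i

open Classical in
/-- Number of isolated vertices. -/
noncomputable def nIso (A : ℕ → ℕ → Prop) (D : Finset ℕ) : ℕ := (D.filter fun i => Iso A D i).card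

/-- The dominator function. -/
theorem exists_dom {n : ℕ} {A : ℕ → ℕ → Prop} (hA : Mat n A) (D : Finset ℕ) :
    ∃ dom : ℕ → ℕ, (∀ v, X A D v → dom v ∈ D ∧ A v (dom v)) ∧
      ∀ v w, X A D v → X A D w → v ≤ w → dom w ≤ dom v := by
  classical
  have hmx : ∀ v, X A D v → ∃ m ∈ D, A v m ∧ ∀ u ∈ D, A v u → u ≤ m := by
    intro v hv
    obtain ⟨u, hu, hvu⟩ := hv
    have hne : (D.filter fun u => A v u).Nonempty := ⟨u, mem_filter.2 ⟨hu, hvu⟩⟩
    refine ⟨(D.filter fun u => A v u).max' hne, ?_, ?_, ?_⟩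
    · exact (mem_filter.1 (max'_mem _ hne)).1
    · exact (mem_filter.1 (max'_mem _ hne)).2
    · intro u hu hvu
      exact le_max' _ _ (mem_filter.2 ⟨hu, hvu⟩)
  choose! mx hmxD hmxA hmxle using hmx
  let S : ℕ → Set ℕ := fun v => {m | ∃ v' ≤ v, X A D v' ∧ mx v' = m}
  have hS : ∀ v, X A D v → (S v).Nonempty := fun v hv => ⟨mx v, v, le_refl _, hv, rfl⟩
  refine ⟨fun v => sInf (S v), ?_, ?_⟩
  · intro v hv
    obtain ⟨v', hv', hXv', hm⟩ := Nat.sInf_mem (hS v hv)
    have hle : sInf (S v) ≤ mx v := Nat.sInf_le ⟨v, le_refl _, hv, rfl⟩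
    show sInf (S v) ∈ D ∧ A v (sInf (S v))
    rw [← hm] at hle ⊢
    refine ⟨hmxD v' hXv', ?_⟩
    rcases hv'.lt_or_eq with hlt | heq
    · rcases hle.lt_or_eq with h1 | h1
      · rcases hA.i2 hlt h1 (hmxA v' hXv') (hmxA v hv) with h2 | h2
        · have := hmxle v' hXv' _ (hmxD v hv) h2
          omega
        · exact h2
      · rw [h1]
        exact hmxA v hv
    · rw [heq]
      exact hmxA v hv
  · intro v w hv hw hvw
    refine Nat.sInf_le ?_
    obtain ⟨v', hv', hXv', hm⟩ := Nat.sInf_mem (hS v hv)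
    exact ⟨v', by omega, hXv', hm⟩

/-- The exchange. -/
theorem exchange {n : ℕ} {A : ℕ → ℕ → Prop} (hA : Mat n A) {D : Finset ℕ} (hD : DomSet n A D)
    (hmin : ∀ D', DomSet n A D' → D'.card ≤ D.card → nIso A D ≤ nIso A D')
    {dom : ℕ → ℕ} (hdom : ∀ v, X A D v → dom v ∈ D ∧ A v (dom v)) {i j : ℕ} (hi : Iso A D i)
    (hj : Iso A D j) (hij : i ≠ j) (hJi : ∃ q, X A D q ∧ dom q = i)
    (hJj : ∃ p, X A D p ∧ dom p = j)
    (hall : ∀ q p, X A D q → dom q = i → X A D p → dom p = j → A q p) : False := by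
  classical
  obtain ⟨q₀, hq, hqi⟩ := hJi
  obtain ⟨p₀, hp, hpj⟩ := hJj
  have hqi' : A q₀ i := by have := (hdom q₀ hq).2; rwa [hqi] at this
  have hpj' : A p₀ j := by have := (hdom p₀ hp).2; rwa [hpj] at this
  have hqp : A q₀ p₀ := hall q₀ p₀ hq hqi hp hpj
  set D' : Finset ℕ := insert p₀ (insert q₀ ((D.erase i).erase j)) with hD'
  have hmem : ∀ u ∈ D, u ≠ i → u ≠ j → u ∈ D' := fun u hu h1 h2 =>
    mem_insert_of_mem (mem_insert_of_mem (mem_erase.2 ⟨h2, mem_erase.2 ⟨h1, hu⟩⟩))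
  have hpD' : p₀ ∈ D' := mem_insert_self _ _
  have hqD' : q₀ ∈ D' := mem_insert_of_mem (mem_insert_self _ _)
  have hcard : D'.card ≤ D.card := by
    have h1 : ((D.erase i).erase j).card + 1 = (D.erase i).card :=
      card_erase_add_one (mem_erase.2 ⟨hij.symm, hj.1⟩)
    have h2 : (D.erase i).card + 1 = D.card := card_erase_add_one hi.1
    have h3 := card_insert_le p₀ (insert q₀ ((D.erase i).erase j))
    have h4 := card_insert_le q₀ ((D.erase i).erase j)
    rw [← hD'] at h3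
    omega
  have hsub : D' ⊆ range n := by
    intro x hx
    rcases mem_insert.1 hx with rfl | hx
    · exact mem_range.2 (hA.lt hpj')
    · rcases mem_insert.1 hx with rfl | hx
      · exact mem_range.2 (hA.lt hqi')
      · exact hD.1 (mem_of_mem_erase (mem_of_mem_erase hx))
  have hds : DomSet n A D' := by
    refine ⟨hsub, ?_⟩
    intro v hv
    by_cases hvi : v = i
    · rw [hvi]
      exact Or.inr ⟨q₀, hqD', hA.symm hqi'⟩
    by_cases hvj : v = j
    · rw [hvj]
      exact Or.inr ⟨p₀, hpD', hA.symm hpj'⟩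
    rcases hD.2 v hv with h | h
    · exact Or.inl (hmem v h hvi hvj)
    · right
      have hXv : X A D v := h
      by_cases h1 : dom v = i
      · exact ⟨p₀, hpD', hall v p₀ hXv h1 hp hpj⟩
      · by_cases h2 : dom v = j
        · exact ⟨q₀, hqD', hA.symm (hall q₀ v hq hqi hXv h2)⟩
        · exact ⟨dom v, hmem _ (hdom v hXv).1 h1 h2, (hdom v hXv).2⟩
  have hlt : nIso A D' < nIso A D := by
    unfold nIso
    refine card_lt_card ((ssubset_iff_of_subset ?_).2 ⟨i, mem_filter.2 ⟨hi.1, hi⟩, ?_⟩)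
    · intro x hx
      obtain ⟨-, hx1, hx2⟩ := mem_filter.1 hx
      have hxp : x ≠ p₀ := by
        rintro rfl
        exact hx2 ⟨q₀, hqD', hA.symm hqp⟩
      have hxq : x ≠ q₀ := by
        rintro rfl
        exact hx2 ⟨p₀, hpD', hqp⟩
      have hxD : x ∈ D := by
        rcases mem_insert.1 hx1 with h | h
        · exact absurd h hxp
        · rcases mem_insert.1 h with h | h
          · exact absurd h hxq
          · exact mem_of_mem_erase (mem_of_mem_erase h)
      refine mem_filter.2 ⟨hxD, hxD, ?_⟩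
      rintro ⟨u, hu, hxu⟩
      refine hx2 ⟨u, hmem u hu ?_ ?_, hxu⟩
      · rintro rfl
        exact hi.2 ⟨x, hxD, hA.symm hxu⟩
      · rintro rfl
        exact hj.2 ⟨x, hxD, hA.symm hxu⟩
    · intro h
      obtain ⟨-, h1, h2⟩ := mem_filter.1 h
      rcases mem_insert.1 h1 with h | h
      · exact h2 ⟨q₀, hqD', by rw [h]; exact hA.symm hqp⟩
      · rcases mem_insert.1 h with h | h
        · exact h2 ⟨p₀, hpD', by rw [h]; exact hqp⟩
        · exact (mem_erase.1 (mem_of_mem_erase h)).1 rfl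
  have := hmin D' hds hcard
  omega

/-- The situation. -/
structure Ctx (n : ℕ) (A : ℕ → ℕ → Prop) (D : Finset ℕ) (dom : ℕ → ℕ) (m s : ℕ) : Prop where
  mat : Mat n A
  ds : DomSet n A D
  domD : ∀ v, X A D v → dom v ∈ D
  domA : ∀ v, X A D v → A v (dom v)
  anti : ∀ v w, X A D v → X A D w → v ≤ w → dom w ≤ dom v
  exch1 : ∀ i j, Iso A D i → Iso A D j → (∃ q, X A D q ∧ dom q = i) →
    (∃ p, X A D p ∧ dom p = j) → (∀ q, X A D q → dom q = i → q < j) →
    ¬ ∀ p, X A D p → dom p = j → i < p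
  exch2 : ∀ i j, Iso A D i → Iso A D j → (∃ q, X A D q ∧ dom q = i) →
    (∃ p, X A D p ∧ dom p = j) → (∀ q, X A D q → dom q = i → j < q) →
    ¬ ∀ p, X A D p → dom p = j → p < i
  mle : m ≤ n
  mD : m < n → m ∈ D
  mprop : ∀ v w, X A D v → v < dom v → X A D w → dom w < w → dom v = dom w → dom v = m
  sle : s ≤ n
  lls : ∀ v, X A D v → v < dom v → v < s
  rrs : ∀ w, X A D w → dom w < w → s ≤ w
  ias : ∀ i, Iso A D i → i ≠ m → (∃ v, X A D v ∧ v < dom v ∧ dom v = i) → s ≤ i
  ibs : ∀ j, Iso A D j → j ≠ m → (∃ w, X A D w ∧ dom w < w ∧ dom w = j) → j < s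

theorem exists_ctx {n : ℕ} {A : ℕ → ℕ → Prop} (hA : Mat n A) {D₀ : Finset ℕ}
    (hD₀ : DomSet n A D₀) : ∃ (D : Finset ℕ) (dom : ℕ → ℕ) (m s : ℕ), D.card ≤ D₀.card ∧
      Ctx n A D dom m s := by
  classical
  -- choice of `D`
  obtain ⟨D, ⟨hD, hcard⟩, hmin⟩ : ∃ D : Finset ℕ, (DomSet n A D ∧ D.card ≤ D₀.card) ∧
      ∀ D', DomSet n A D' → D'.card ≤ D.card → nIso A D ≤ nIso A D' := by
    let S : Set (Finset ℕ) := {D | DomSet n A D ∧ D.card ≤ D₀.card}
    have hS : S.Nonempty := ⟨D₀, hD₀, le_refl _⟩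
    refine ⟨(measure (nIso A)).wf.min S hS, (measure (nIso A)).wf.min_mem S hS, ?_⟩
    intro D' hD' hc
    have h1 : D' ∈ S := ⟨hD', hc.trans ((measure (nIso A)).wf.min_mem S hS).2⟩
    have h2 := (measure (nIso A)).wf.not_lt_min S h1
    exact not_lt.1 h2
  obtain ⟨dom, hdom, hanti⟩ := exists_dom hA D
  -- the middle vertex
  obtain ⟨m, hm1, hm2, hm3⟩ : ∃ m, m ≤ n ∧ (m < n → m ∈ D) ∧
      ∀ v w, X A D v → v < dom v → X A D w → dom w < w → dom v = dom w → dom v = m := by
    by_cases h : ∃ v w, X A D v ∧ v < dom v ∧ X A D w ∧ dom w < w ∧ dom v = dom w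
    · obtain ⟨v, w, hv, hv', hw, hw', hvw⟩ := h
      have h1 : dom v ∈ D := (hdom v hv).1
      refine ⟨dom v, (mem_range.1 (hD.1 h1)).le, fun _ => h1, ?_⟩
      intro v' w' hx hx' hy hy' hxy
      have e1 : dom v ≤ dom v' := by
        rw [hvw]
        refine hanti v' w hx hw ?_
        by_contra hcon
        have := hanti w v' hw hx (by omega)
        omega
      have e2 : dom w' ≤ dom v := by
        refine hanti v w' hv hy ?_
        by_contra hcon
        have := hanti w' v hy hv (by omega)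
        omega
      omega
    · refine ⟨n, le_refl _, fun h => absurd h (lt_irrefl _), ?_⟩
      intro v w h1 h2 h3 h4 h5
      exact absurd ⟨v, w, h1, h2, h3, h4, h5⟩ h
  have hlr : ∀ v w, X A D v → v < dom v → X A D w → dom w < w → v < w := by
    intro v w hv hv' hw hw'
    by_contra hcon
    have := hanti w v hw hv (by omega)
    omega
  -- the split point
  let lft : ℕ → Prop := fun x => (X A D x ∧ x < dom x) ∨
    (Iso A D x ∧ x ≠ m ∧ ∃ w, X A D w ∧ dom w < w ∧ dom w = x)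
  let rgt : ℕ → Prop := fun x => (X A D x ∧ dom x < x) ∨
    (Iso A D x ∧ x ≠ m ∧ ∃ v, X A D v ∧ v < dom v ∧ dom v = x)
  have hlt : ∀ x y, lft x → rgt y → x < y := by
    rintro x y (⟨hx, hx'⟩ | ⟨hx, hxm, w, hw, hw', hwx⟩) (⟨hy, hy'⟩ | ⟨hy, hym, v, hv, hv', hvy⟩)
    · exact hlr x y hx hx' hy hy'
    · rcases le_total x v with h | h
      · omega
      · have := hanti v x hv hx h
        omega
    · rcases le_total w y with h | h
      · omega
      · have := hanti y w hy hw h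
        omega
    · have h1 := hlr v w hv hv' hw hw'
      have h2 := hanti v w hv hw h1.le
      rcases h2.lt_or_eq with h3 | h3
      · omega
      · exact absurd (hm3 v w hv hv' hw hw' h3.symm) (by rw [hvy]; exact hym)
  have hlft : ∀ x, lft x → x < n := by
    rintro x (⟨hx, -⟩ | ⟨hx, -⟩)
    · obtain ⟨u, -, hu⟩ := hx
      exact hA.lt hu
    · exact mem_range.1 (hD.1 hx.1)
  obtain ⟨s, hs1, hs2, hs3⟩ : ∃ s, s ≤ n ∧ (∀ x, lft x → x < s) ∧ ∀ y, rgt y → s ≤ y := by
    refine ⟨((range n).filter lft).sup (fun x => x + 1), ?_, ?_, ?_⟩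
    · refine Finset.sup_le fun x hx => ?_
      have := hlft x (mem_filter.1 hx).2
      omega
    · intro x hx
      have h1 : x ∈ (range n).filter lft := mem_filter.2 ⟨mem_range.2 (hlft x hx), hx⟩
      have h2 : x + 1 ≤ ((range n).filter lft).sup (fun x => x + 1) :=
        Finset.le_sup (f := fun x => x + 1) h1
      omega
    · intro y hy
      refine Finset.sup_le fun x hx => ?_
      have := hlt x y (mem_filter.1 hx).2 hy
      omega
  refine ⟨D, dom, m, s, hcard, ⟨hA, hD, fun v hv => (hdom v hv).1, fun v hv => (hdom v hv).2,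
    hanti, ?_, ?_, hm1, hm2, hm3, hs1, fun v h1 h2 => hs2 v (Or.inl ⟨h1, h2⟩),
    fun w h1 h2 => hs3 w (Or.inl ⟨h1, h2⟩), fun i h1 h2 h3 => hs3 i (Or.inr ⟨h1, h2, h3⟩),
    fun j h1 h2 h3 => hs2 j (Or.inr ⟨h1, h2, h3⟩)⟩⟩
  · intro i j hi hj hJi hJj h1 h2
    have hij : i ≠ j := by
      rintro rfl
      obtain ⟨q, hq, hqi⟩ := hJi
      have := h1 q hq hqi
      have := h2 q hq hqi
      omega
    refine exchange hA hD hmin hdom hi hj hij hJi hJj ?_
    intro q p hq hqi hp hpj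
    have e1 : A q i := by have := (hdom q hq).2; rwa [hqi] at this
    have e2 : A p j := by have := (hdom p hp).2; rwa [hpj] at this
    rcases hA.i2 (h1 q hq hqi) (h2 p hp hpj) e1 (hA.symm e2) with h | h
    · exact h
    · exact absurd ⟨i, hi.1, h⟩ hj.2
  · intro i j hi hj hJi hJj h1 h2
    have hij : i ≠ j := by
      rintro rfl
      obtain ⟨q, hq, hqi⟩ := hJi
      have := h1 q hq hqi
      have := h2 q hq hqi
      omega
    refine exchange hA hD hmin hdom hi hj hij hJi hJj ?_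
    intro q p hq hqi hp hpj
    have e1 : A q i := by have := (hdom q hq).2; rwa [hqi] at this
    have e2 : A p j := by have := (hdom p hp).2; rwa [hpj] at this
    rcases hA.i2 (h1 q hq hqi) (h2 p hp hpj) (hA.symm e2) e1 with h | h
    · exact absurd ⟨i, hi.1, h⟩ hj.2
    · exact h

end Comp

end Pool.Agent.SCG
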