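import Pool.Agent.SCG.CompA

/-!
# Completeness of the search: the path
-/

set_option autoImplicit false

open Finset
open scoped Classical

namespace Pool.Agent.SCG

namespace Comp

variable {n : ℕ} {A : ℕ → ℕ → Prop} {D : Finset ℕ} {dom : ℕ → ℕ} {m s : ℕ}

/-- Vertices dominated from the right by the first register. -/
def Lp (A : ℕ → ℕ → Prop) (D : Finset ℕ) (dom : ℕ → ℕ) (m v : ℕ) : Prop :=
  X A D v ∧ v < dom v ∧ dom v ≠ m

/-- Vertices dominated from the left by the second register. -/
def Rp (A : ℕ → ℕ → Prop) (D : Finset ℕ) (dom : ℕ → ℕ) (m v : ℕ) : Prop :=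
  X A D v ∧ dom v < v ∧ dom v ≠ m

/-- Contents of the first register. -/
noncomputable def DA (A : ℕ → ℕ → Prop) (D : Finset ℕ) (dom : ℕ → ℕ) (m : ℕ) : Finset ℕ :=
  D.filter fun i => ∃ v, Lp A D dom m v ∧ dom v = i

/-- Contents of the second register. -/
noncomputable def DB (A : ℕ → ℕ → Prop) (D : Finset ℕ) (dom : ℕ → ℕ) (m : ℕ) : Finset ℕ :=
  D.filter fun j => ∃ w, Rp A D dom m w ∧ dom w = j

/-- Isolated vertices that are paid when they are processed. -/
noncomputable def I0 (A : ℕ → ℕ → Prop) (D : Finset ℕ) (dom : ℕ → ℕ) (m : ℕ) : Finset ℕ :=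
  D.filter fun x => Iso A D x ∧ x ∉ DA A D dom m ∧ x ∉ DB A D dom m ∧ x ≠ m

/-- Pending contents of the first register. -/
noncomputable def pA (A : ℕ → ℕ → Prop) (D : Finset ℕ) (dom : ℕ → ℕ) (m r e : ℕ) : Finset ℕ :=
  (DA A D dom m).filter fun i => (∃ v, Lp A D dom m v ∧ r ≤ v ∧ dom v = i) ∨ (Iso A D i ∧ i < e)

/-- Pending contents of the second register. -/
noncomputable def pB (A : ℕ → ℕ → Prop) (D : Finset ℕ) (dom : ℕ → ℕ) (m r e : ℕ) : Finset ℕ :=
  (DB A D dom m).filter fun j => (∃ w, Rp A D dom m w ∧ w < e ∧ dom w = j) ∨ (Iso A D j ∧ r ≤ j)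

/-- Processed part of `I0`. -/
noncomputable def I0p (A : ℕ → ℕ → Prop) (D : Finset ℕ) (dom : ℕ → ℕ) (m r e : ℕ) : Finset ℕ :=
  (I0 A D dom m).filter fun x => x < r ∨ e ≤ x

/-- Feasible positions. -/
structure Feas (A : ℕ → ℕ → Prop) (D : Finset ℕ) (dom : ℕ → ℕ) (m r e : ℕ) : Prop where
  f1 : ∀ i ∈ DA A D dom m, Iso A D i → ∀ v, Lp A D dom m v → v < r → dom v < i → e ≤ i
  f2 : ∀ i ∈ DA A D dom m, Iso A D i → e ≤ i → ∀ v, Lp A D dom m v → i < dom v → v < r
  g1 : ∀ j ∈ DB A D dom m, Iso A D j → ∀ w, Rp A D dom m w → e ≤ w → j < dom w → j < r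
  g2 : ∀ j ∈ DB A D dom m, Iso A D j → j < r → ∀ w, Rp A D dom m w → dom w < j → e ≤ w

/-- Cost of the first or second register. -/
def KA (T p : Finset ℕ) : ℕ := (T.card - p.card) + if p.Nonempty then 1 else 0

/-- The register contents. -/
def RegA (p : Finset ℕ) (a : ℕ) : Prop := p.Nonempty → a ∈ p ∧ ∀ i ∈ p, i ≤ a

/-- The register contents. -/
def RegB (p : Finset ℕ) (b : ℕ) : Prop := p.Nonempty → b ∈ p ∧ ∀ i ∈ p, b ≤ i

/-- The invariant. -/
def State (n : ℕ) (A : ℕ → ℕ → Prop) (D : Finset ℕ) (dom : ℕ → ℕ) (m r e : ℕ) : Prop :=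
  ∃ q a b, Reach n A m q r (n - e) a b ∧ RegA (pA A D dom m r e) a ∧ RegB (pB A D dom m r e) b ∧
    q ≤ (if m < n then 1 else 0) + KA (DA A D dom m) (pA A D dom m r e) +
      KA (DB A D dom m) (pB A D dom m r e) + (I0p A D dom m r e).card

theorem regA_step {m q r c a b : ℕ} {T p p' : Finset ℕ} (h : Reach n A m q r c a b)
    (ha : RegA p a) (hT : T ⊆ range n) (hp : p ⊆ T) (hp' : p' ⊆ p) :
    ∃ q' a', Reach n A m q' r c a' b ∧ RegA p' a' ∧ q' + KA T p ≤ q + KA T p' := by
  have hc1 := card_le_card hp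
  have hc2 := card_le_card hp'
  by_cases heq : p' = p
  · subst heq
    exact ⟨q, a, h, ha, le_refl _⟩
  have hlt : p'.card < p.card := card_lt_card (hp'.ssubset_of_ne heq)
  by_cases hne : p'.Nonempty
  · refine ⟨q + 1, p'.max' hne, Reach.setA h ?_, fun _ => ⟨max'_mem _ _, fun i hi =>
      le_max' _ _ hi⟩, ?_⟩
    · exact mem_range.1 (hT (hp (hp' (max'_mem _ _))))
    · unfold KA
      rw [if_pos hne, if_pos (hne.mono hp')]
      omega
  · refine ⟨q, a, h, fun h => absurd h hne, ?_⟩
    unfold KA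
    rw [if_neg hne]
    have : p'.card = 0 := by rw [card_eq_zero]; exact not_nonempty_iff_eq_empty.1 hne
    split_ifs <;> omega

theorem regB_step {m q r c a b : ℕ} {T p p' : Finset ℕ} (h : Reach n A m q r c a b)
    (hb : RegB p b) (hT : T ⊆ range n) (hp : p ⊆ T) (hp' : p' ⊆ p) :
    ∃ q' b', Reach n A m q' r c a b' ∧ RegB p' b' ∧ q' + KA T p ≤ q + KA T p' := by
  have hc1 := card_le_card hp
  have hc2 := card_le_card hp'
  by_cases heq : p' = p
  · subst heq
    exact ⟨q, b, h, hb, le_refl _⟩
  have hlt : p'.card < p.card := card_lt_card (hp'.ssubset_of_ne heq)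
  by_cases hne : p'.Nonempty
  · refine ⟨q + 1, p'.min' hne, Reach.setB h ?_, fun _ => ⟨min'_mem _ _, fun i hi =>
      min'_le _ _ hi⟩, ?_⟩
    · exact mem_range.1 (hT (hp (hp' (min'_mem _ _))))
    · unfold KA
      rw [if_pos hne, if_pos (hne.mono hp')]
      omega
  · refine ⟨q, b, h, fun h => absurd h hne, ?_⟩
    unfold KA
    rw [if_neg hne]
    have : p'.card = 0 := by rw [card_eq_zero]; exact not_nonempty_iff_eq_empty.1 hne
    split_ifs <;> omega

section

variable (hC : Ctx n A D dom m s)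

include hC

theorem DA_sub : DA A D dom m ⊆ range n := fun _ h => hC.ds.1 (mem_filter.1 h).1

theorem DB_sub : DB A D dom m ⊆ range n := fun _ h => hC.ds.1 (mem_filter.1 h).1

omit hC in
theorem pA_anti {r r' e e' : ℕ} (hr : r ≤ r') (he : e' ≤ e) :
    pA A D dom m r' e' ⊆ pA A D dom m r e := by
  intro i hi
  unfold pA at hi ⊢
  rw [mem_filter] at hi ⊢
  refine ⟨hi.1, ?_⟩
  rcases hi.2 with ⟨v, h1, h2, h3⟩ | ⟨h1, h2⟩
  · exact Or.inl ⟨v, h1, by omega, h3⟩
  · exact Or.inr ⟨h1, by omega⟩

omit hC in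
theorem pB_anti {r r' e e' : ℕ} (hr : r ≤ r') (he : e' ≤ e) :
    pB A D dom m r' e' ⊆ pB A D dom m r e := by
  intro i hi
  unfold pB at hi ⊢
  rw [mem_filter] at hi ⊢
  refine ⟨hi.1, ?_⟩
  rcases hi.2 with ⟨v, h1, h2, h3⟩ | ⟨h1, h2⟩
  · exact Or.inl ⟨v, h1, by omega, h3⟩
  · exact Or.inr ⟨h1, by omega⟩

omit hC in
theorem I0p_mono {r r' e e' : ℕ} (hr : r ≤ r') (he : e' ≤ e) :
    I0p A D dom m r e ⊆ I0p A D dom m r' e' := by
  intro i hi
  unfold I0p at hi ⊢
  rw [mem_filter] at hi ⊢
  exact ⟨hi.1, by omega⟩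

/-- Moving a pointer. -/
theorem state_move {r e r' e' q a b : ℕ} (hr : r ≤ r') (he : e' ≤ e)
    (h : Reach n A m q r' (n - e') a b) (ha : RegA (pA A D dom m r e) a)
    (hb : RegB (pB A D dom m r e) b)
    (hq : q ≤ (if m < n then 1 else 0) + KA (DA A D dom m) (pA A D dom m r e) +
      KA (DB A D dom m) (pB A D dom m r e) + (I0p A D dom m r' e').card) :
    State n A D dom m r' e' := by
  obtain ⟨q1, a1, h1, h2, h3⟩ := regA_step h ha (DA_sub hC) (by
    unfold pA; exact filter_subset _ _) (pA_anti hr he)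
  obtain ⟨q2, b2, h4, h5, h6⟩ := regB_step h1 hb (DB_sub hC) (by
    unfold pB; exact filter_subset _ _) (pB_anti hr he)
  exact ⟨q2, a1, b2, h4, h2, h5, by omega⟩

/-- Moving the left pointer. -/
theorem left_step {r e : ℕ} (hr : r < s) (he : s ≤ e) (hen : e ≤ n)
    (hF : Feas A D dom m (r + 1) e) (hS : State n A D dom m r e) :
    State n A D dom m (r + 1) e := by
  obtain ⟨q, a, b, h, ha, hb, hq⟩ := hS
  have hsn := hC.sle
  have hmono := card_le_card (I0p_mono (A := A) (D := D) (dom := dom) (m := m)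
    (show r ≤ r + 1 by omega) (le_refl e))
  have hfree : Hit A m a b r → State n A D dom m (r + 1) e := fun hh =>
    state_move hC (by omega) (le_refl e) (Reach.left h (by omega) hh) ha hb (by omega)
  by_cases hX : X A D r
  · have h1 := hC.domA r hX
    have h2 : r < dom r := by
      rcases lt_trichotomy r (dom r) with h3 | h3 | h3
      · exact h3
      · rw [← h3] at h1
        exact absurd h1 (hC.mat.irr r)
      · have := hC.rrs r hX h3
        omega
    by_cases hm : dom r = m
    · apply hfree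
      unfold Hit
      rw [hm] at h1
      exact Or.inr (Or.inr (Or.inr (Or.inl h1)))
    · have hL : Lp A D dom m r := ⟨hX, h2, hm⟩
      have hD : dom r ∈ DA A D dom m := by
        unfold DA
        exact mem_filter.2 ⟨hC.domD r hX, r, hL, rfl⟩
      have hp : dom r ∈ pA A D dom m r e := by
        unfold pA
        exact mem_filter.2 ⟨hD, Or.inl ⟨r, hL, le_refl _, rfl⟩⟩
      have hge : ∀ i ∈ pA A D dom m r e, i ≤ dom r := by
        intro i hi
        unfold pA at hi
        rw [mem_filter] at hi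
        rcases hi.2 with ⟨v, h3, h4, h5⟩ | ⟨h3, h4⟩
        · rw [← h5]
          exact hC.anti r v hX h3.1 h4
        · by_contra hcon
          have := hF.f1 i hi.1 h3 r hL (by omega) (by omega)
          omega
      have ha' : a = dom r := by
        obtain ⟨h3, h4⟩ := ha ⟨_, hp⟩
        have := hge a h3
        have := h4 _ hp
        omega
      apply hfree
      unfold Hit
      rw [ha']
      exact Or.inr (Or.inr (Or.inr (Or.inr (Or.inl h1))))
  · have hrD : r ∈ D := by
      rcases hC.ds.2 r (by omega) with h1 | h1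
      · exact h1
      · exact absurd h1 hX
    have hI : Iso A D r := ⟨hrD, hX⟩
    by_cases hm : r = m
    · apply hfree
      unfold Hit
      exact Or.inl hm
    · by_cases hB : r ∈ DB A D dom m
      · have hp : r ∈ pB A D dom m r e := by
          unfold pB
          exact mem_filter.2 ⟨hB, Or.inr ⟨hI, le_refl _⟩⟩
        have hle : ∀ j ∈ pB A D dom m r e, r ≤ j := by
          intro j hj
          unfold pB at hj
          rw [mem_filter] at hj
          rcases hj.2 with ⟨w, h3, h4, h5⟩ | ⟨h3, h4⟩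
          · by_contra hcon
            have := hF.g2 r hB hI (by omega) w h3 (by omega)
            omega
          · exact h4
        have hb' : b = r := by
          obtain ⟨h3, h4⟩ := hb ⟨_, hp⟩
          have := hle b h3
          have := h4 _ hp
          omega
        apply hfree
        unfold Hit
        exact Or.inr (Or.inr (Or.inl hb'.symm))
      · have hA' : r ∉ DA A D dom m := by
          intro hA'
          unfold DA at hA'
          obtain ⟨-, v, hv, hvr⟩ := mem_filter.1 hA'
          have := hC.ias r hI hm ⟨v, hv.1, hv.2.1, hvr⟩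
          omega
        have h0 : r ∈ I0 A D dom m := by
          unfold I0
          exact mem_filter.2 ⟨hrD, hI, hA', hB, hm⟩
        have h1 : (I0p A D dom m r e).card < (I0p A D dom m (r + 1) e).card := by
          refine card_lt_card ((ssubset_iff_of_subset (I0p_mono (by omega) (le_refl e))).2
            ⟨r, ?_, ?_⟩)
          · unfold I0p
            exact mem_filter.2 ⟨h0, Or.inl (by omega)⟩
          · intro h2
            unfold I0p at h2
            have := (mem_filter.1 h2).2
            omega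
        exact state_move hC (by omega) (le_refl e) (Reach.leftPay h (by omega)) ha hb (by omega)

/-- Moving the right pointer. -/
theorem right_step {r e : ℕ} (hr : r ≤ s) (he : s < e) (hen : e ≤ n)
    (hF : Feas A D dom m r (e - 1)) (hS : State n A D dom m r e) :
    State n A D dom m r (e - 1) := by
  obtain ⟨q, a, b, h, ha, hb, hq⟩ := hS
  have hsn := hC.sle
  obtain ⟨w, rfl⟩ : ∃ w, e = w + 1 := ⟨e - 1, by omega⟩
  rw [Nat.add_sub_cancel] at hF ⊢
  have hnc : n - w = n - (w + 1) + 1 := by omega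
  have hmono := card_le_card (I0p_mono (A := A) (D := D) (dom := dom) (m := m)
    (le_refl r) (show w ≤ w + 1 by omega))
  have hfree : Hit A m a b w → State n A D dom m r w := fun hh => by
    refine state_move hC (le_refl r) (show w ≤ w + 1 by omega) (q := q) (a := a) (b := b) ?_ ha hb
      (by omega)
    rw [hnc]
    exact Reach.right h (by omega) (w := w) (by omega) hh
  by_cases hX : X A D w
  · have h1 := hC.domA w hX
    have h2 : dom w < w := by
      rcases lt_trichotomy w (dom w) with h3 | h3 | h3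
      · have := hC.lls w hX h3
        omega
      · rw [← h3] at h1
        exact absurd h1 (hC.mat.irr w)
      · exact h3
    by_cases hm : dom w = m
    · apply hfree
      unfold Hit
      rw [hm] at h1
      exact Or.inr (Or.inr (Or.inr (Or.inl h1)))
    · have hR : Rp A D dom m w := ⟨hX, h2, hm⟩
      have hD : dom w ∈ DB A D dom m := by
        unfold DB
        exact mem_filter.2 ⟨hC.domD w hX, w, hR, rfl⟩
      have hp : dom w ∈ pB A D dom m r (w + 1) := by
        unfold pB
        exact mem_filter.2 ⟨hD, Or.inl ⟨w, hR, by omega, rfl⟩⟩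
      have hge : ∀ j ∈ pB A D dom m r (w + 1), dom w ≤ j := by
        intro j hj
        unfold pB at hj
        rw [mem_filter] at hj
        rcases hj.2 with ⟨v, h3, h4, h5⟩ | ⟨h3, h4⟩
        · rw [← h5]
          exact hC.anti v w h3.1 hX (by omega)
        · by_contra hcon
          have := hF.g1 j hj.1 h3 w hR (le_refl _) (by omega)
          omega
      have hb' : b = dom w := by
        obtain ⟨h3, h4⟩ := hb ⟨_, hp⟩
        have := hge b h3
        have := h4 _ hp
        omega
      apply hfree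
      unfold Hit
      rw [hb']
      exact Or.inr (Or.inr (Or.inr (Or.inr (Or.inr h1))))
  · have hwD : w ∈ D := by
      rcases hC.ds.2 w (by omega) with h1 | h1
      · exact h1
      · exact absurd h1 hX
    have hI : Iso A D w := ⟨hwD, hX⟩
    by_cases hm : w = m
    · apply hfree
      unfold Hit
      exact Or.inl hm
    · by_cases hA' : w ∈ DA A D dom m
      · have hp : w ∈ pA A D dom m r (w + 1) := by
          unfold pA
          exact mem_filter.2 ⟨hA', Or.inr ⟨hI, by omega⟩⟩
        have hle : ∀ i ∈ pA A D dom m r (w + 1), i ≤ w := by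
          intro i hi
          unfold pA at hi
          rw [mem_filter] at hi
          rcases hi.2 with ⟨v, h3, h4, h5⟩ | ⟨h3, h4⟩
          · by_contra hcon
            have := hF.f2 w hA' hI (le_refl _) v h3 (by omega)
            omega
          · omega
        have ha' : a = w := by
          obtain ⟨h3, h4⟩ := ha ⟨_, hp⟩
          have := hle a h3
          have := h4 _ hp
          omega
        apply hfree
        unfold Hit
        exact Or.inr (Or.inl ha'.symm)
      · have hB' : w ∉ DB A D dom m := by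
          intro hB'
          unfold DB at hB'
          obtain ⟨-, v, hv, hvr⟩ := mem_filter.1 hB'
          have := hC.ibs w hI hm ⟨v, hv.1, hv.2.1, hvr⟩
          omega
        have h0 : w ∈ I0 A D dom m := by
          unfold I0
          exact mem_filter.2 ⟨hwD, hI, hA', hB', hm⟩
        have h1 : (I0p A D dom m r (w + 1)).card < (I0p A D dom m r w).card := by
          refine card_lt_card ((ssubset_iff_of_subset (I0p_mono (le_refl r) (by omega))).2
            ⟨w, ?_, ?_⟩)
          · unfold I0p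
            exact mem_filter.2 ⟨h0, Or.inr (le_refl _)⟩
          · intro h2
            unfold I0p at h2
            have := (mem_filter.1 h2).2
            omega
        refine state_move hC (le_refl r) (show w ≤ w + 1 by omega) (q := q + 1) (a := a) (b := b)
          ?_ ha hb (by omega)
        rw [hnc]
        exact Reach.rightPay h (by omega)

omit hC in
theorem DA_dom {i : ℕ} (h : i ∈ DA A D dom m) : (∃ q, X A D q ∧ dom q = i) ∧ i ≠ m ∧
    ∃ v, X A D v ∧ v < dom v ∧ dom v = i := by
  unfold DA at h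
  obtain ⟨-, v, hv, hvi⟩ := mem_filter.1 h
  exact ⟨⟨v, hv.1, hvi⟩, by rw [← hvi]; exact hv.2.2, v, hv.1, hv.2.1, hvi⟩

omit hC in
theorem DB_dom {i : ℕ} (h : i ∈ DB A D dom m) : (∃ q, X A D q ∧ dom q = i) ∧ i ≠ m ∧
    ∃ v, X A D v ∧ dom v < v ∧ dom v = i := by
  unfold DB at h
  obtain ⟨-, v, hv, hvi⟩ := mem_filter.1 h
  exact ⟨⟨v, hv.1, hvi⟩, by rw [← hvi]; exact hv.2.2, v, hv.1, hv.2.1, hvi⟩

/-- One of the two moves keeps feasibility. -/
theorem feas_step {r e : ℕ} (hr : r ≤ s) (he : s ≤ e) (hre : r < e) (hF : Feas A D dom m r e) :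
    (r < s ∧ Feas A D dom m (r + 1) e) ∨ (s < e ∧ Feas A D dom m r (e - 1)) := by
  by_cases hrs : r = s
  · right
    subst hrs
    refine ⟨hre, ⟨?_, ?_, ?_, ?_⟩⟩
    · intro i hi hI v hv h1 h2
      have := hF.f1 i hi hI v hv h1 h2
      omega
    · intro i _ _ _ v hv _
      exact hC.lls v hv.1 hv.2.1
    · intro j hj hI w _ _ _
      obtain ⟨-, h2, h3⟩ := DB_dom hj
      exact hC.ibs j hI h2 h3
    · intro j hj hI h1 w hw h2
      have := hF.g2 j hj hI h1 w hw h2
      omega
  by_cases hes : e = s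
  · left
    subst hes
    refine ⟨hre, ⟨?_, ?_, ?_, ?_⟩⟩
    · intro i hi hI v _ _ _
      obtain ⟨-, h2, h3⟩ := DA_dom hi
      exact hC.ias i hI h2 h3
    · intro i hi hI h1 v hv h2
      have := hF.f2 i hi hI h1 v hv h2
      omega
    · intro j hj hI w hw h1 h2
      have := hF.g1 j hj hI w hw h1 h2
      omega
    · intro j _ _ _ w hw _
      exact hC.rrs w hw.1 hw.2.1
  by_contra hcon
  push Not at hcon
  obtain ⟨hc1, hc2⟩ := hcon
  have hl : (∃ i ∈ DA A D dom m, Iso A D i ∧ Lp A D dom m r ∧ dom r < i ∧ i < e) ∨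
      (r ∈ DB A D dom m ∧ Iso A D r ∧ ∃ w, Rp A D dom m w ∧ dom w < r ∧ w < e) := by
    by_contra hcon
    push Not at hcon
    obtain ⟨h1, h2⟩ := hcon
    refine hc1 (by omega) ⟨?_, ?_, ?_, ?_⟩
    · intro i hi hI v hv h3 h4
      by_cases hvr : v = r
      · subst hvr
        exact h1 i hi hI hv h4
      · exact hF.f1 i hi hI v hv (by omega) h4
    · intro i hi hI h3 v hv h4
      have := hF.f2 i hi hI h3 v hv h4
      omega
    · intro j hj hI w hw h3 h4
      have := hF.g1 j hj hI w hw h3 h4
      omega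
    · intro j hj hI h3 w hw h4
      by_cases hjr : j = r
      · subst hjr
        exact h2 hj hI w hw h4
      · exact hF.g2 j hj hI (by omega) w hw h4
  have hr' : (∃ j ∈ DB A D dom m, Iso A D j ∧ Rp A D dom m (e - 1) ∧ j < dom (e - 1) ∧ r ≤ j) ∨
      (e - 1 ∈ DA A D dom m ∧ Iso A D (e - 1) ∧ ∃ v, Lp A D dom m v ∧ e - 1 < dom v ∧ r ≤ v) := by
    by_contra hcon
    push Not at hcon
    obtain ⟨h1, h2⟩ := hcon
    refine hc2 (by omega) ⟨?_, ?_, ?_, ?_⟩
    · intro i hi hI v hv h3 h4
      have := hF.f1 i hi hI v hv h3 h4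
      omega
    · intro i hi hI h3 v hv h4
      by_cases hie : i = e - 1
      · subst hie
        exact h2 hi hI v hv h4
      · exact hF.f2 i hi hI (by omega) v hv h4
    · intro j hj hI w hw h3 h4
      by_cases hwe : w = e - 1
      · subst hwe
        exact h1 j hj hI hw h4
      · exact hF.g1 j hj hI w hw (by omega) h4
    · intro j hj hI h3 w hw h4
      have := hF.g2 j hj hI h3 w hw h4
      omega
  rcases hl with ⟨i, hi, hiI, hLr, h1, h2⟩ | ⟨hrB, hrI, w, hw, h1, h2⟩ <;>
    rcases hr' with ⟨j, hj, hjI, hRe, h3, h4⟩ | ⟨heA, heI, v, hv, h3, h4⟩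
  · -- exchange, first form
    refine hC.exch1 i j hiI hjI (DA_dom hi).1 (DB_dom hj).1 ?_ ?_
    · intro q hq hqi
      have hqr : q < r := by
        by_contra hcon
        have := hC.anti r q hLr.1 hq (by omega)
        omega
      omega
    · intro p hp hpj
      have hpe : e - 1 < p := by
        by_contra hcon
        have := hC.anti p (e - 1) hp hRe.1 (by omega)
        omega
      omega
  · have := hC.anti r v hLr.1 hv.1 h4
    omega
  · have := hC.anti w (e - 1) hw.1 hRe.1 (by omega)
    omega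
  · refine hC.exch2 (e - 1) r heI hrI (DA_dom heA).1 (DB_dom hrB).1 ?_ ?_
    · intro q hq hqi
      have hqv : v < q := by
        by_contra hcon
        have := hC.anti q v hq hv.1 (by omega)
        omega
      omega
    · intro p hp hpj
      have hpw : p < w := by
        by_contra hcon
        have := hC.anti w p hw.1 hp (by omega)
        omega
      omega

theorem feas_start : Feas A D dom m 0 n := by
  refine ⟨?_, ?_, ?_, ?_⟩
  · intro i _ _ v _ h _
    omega
  · intro i hi _ h
    have := mem_range.1 (DA_sub hC hi)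
    omega
  · intro j _ _ w hw h
    obtain ⟨u, -, hu⟩ := hw.1
    have := hC.mat.lt hu
    omega
  · intro j _ _ h
    omega

theorem state_start : State n A D dom m 0 n := by
  have hA1 : pA A D dom m 0 n = DA A D dom m := by
    unfold pA
    refine filter_true_of_mem fun i hi => ?_
    have hi' := hi
    unfold DA at hi'
    obtain ⟨-, v, hv, hvi⟩ := mem_filter.1 hi'
    exact Or.inl ⟨v, hv, by omega, hvi⟩
  have hB1 : pB A D dom m 0 n = DB A D dom m := by
    unfold pB
    refine filter_true_of_mem fun i hi => ?_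
    have hi' := hi
    unfold DB at hi'
    obtain ⟨-, w, hw, hwi⟩ := mem_filter.1 hi'
    obtain ⟨u, -, hu⟩ := hw.1
    exact Or.inl ⟨w, hw, hC.mat.lt hu, hwi⟩
  have h0 : ∃ q, Reach n A m q 0 0 n n ∧ q ≤ if m < n then 1 else 0 := by
    by_cases hm : m < n
    · exact ⟨1, Reach.start1 hm, by rw [if_pos hm]⟩
    · have := hC.mle
      exact ⟨0, Reach.start0 (by omega), by omega⟩
  obtain ⟨q, hq, hq'⟩ := h0
  have h1 : ∃ q' a, Reach n A m q' 0 0 a n ∧ RegA (DA A D dom m) a ∧
      q' ≤ q + if (DA A D dom m).Nonempty then 1 else 0 := by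
    by_cases hne : (DA A D dom m).Nonempty
    · refine ⟨q + 1, (DA A D dom m).max' hne, Reach.setA hq ?_, fun _ => ⟨max'_mem _ _,
        fun i hi => le_max' _ _ hi⟩, by rw [if_pos hne]⟩
      exact mem_range.1 (DA_sub hC (max'_mem _ _))
    · exact ⟨q, n, hq, fun h => absurd h hne, by omega⟩
  obtain ⟨q1, a, h1, h2, h3⟩ := h1
  have h4 : ∃ q' b, Reach n A m q' 0 0 a b ∧ RegB (DB A D dom m) b ∧
      q' ≤ q1 + if (DB A D dom m).Nonempty then 1 else 0 := by
    by_cases hne : (DB A D dom m).Nonempty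
    · refine ⟨q1 + 1, (DB A D dom m).min' hne, Reach.setB h1 ?_, fun _ => ⟨min'_mem _ _,
        fun i hi => min'_le _ _ hi⟩, by rw [if_pos hne]⟩
      exact mem_range.1 (DB_sub hC (min'_mem _ _))
    · exact ⟨q1, n, h1, fun h => absurd h hne, by omega⟩
  obtain ⟨q2, b, h5, h6, h7⟩ := h4
  refine ⟨q2, a, b, ?_, ?_, ?_, ?_⟩
  · rw [Nat.sub_self]; exact h5
  · rw [hA1]; exact h2
  · rw [hB1]; exact h6
  · rw [hA1, hB1]
    unfold KA
    omega

theorem exists_state (k : ℕ) (hk : k ≤ n) : ∃ r e, r ≤ s ∧ s ≤ e ∧ e ≤ n ∧ r + (n - e) = k ∧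
    Feas A D dom m r e ∧ State n A D dom m r e := by
  induction k with
  | zero => exact ⟨0, n, by omega, hC.sle, le_refl _, by omega, feas_start hC, state_start hC⟩
  | succ k ih =>
    obtain ⟨r, e, h1, h2, h3, h4, h5, h6⟩ := ih (by omega)
    rcases feas_step hC h1 h2 (by omega) h5 with ⟨h7, h8⟩ | ⟨h7, h8⟩
    · exact ⟨r + 1, e, by omega, h2, h3, by omega, h8, left_step hC h7 h2 h3 h8 h6⟩
    · exact ⟨r, e - 1, h1, by omega, by omega, by omega, h8, right_step hC h1 h7 h3 h8 h6⟩

theorem final : ∃ q r c a b : ℕ, q ≤ D.card ∧ r + c = n ∧ Reach n A m q r c a b := by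
  obtain ⟨r, e, h1, h2, h3, h4, -, q, a, b, h5, -, -, h6⟩ := exists_state hC n (le_refl _)
  have hr : r = s := by omega
  have he : e = s := by omega
  subst hr
  subst he
  refine ⟨q, e, n - e, a, b, ?_, by omega, h5⟩
  have hA0 : pA A D dom m e e = ∅ := by
    unfold pA
    refine filter_false_of_mem fun i hi => ?_
    obtain ⟨-, h7, h8⟩ := DA_dom hi
    rintro (⟨v, hv, h9, -⟩ | ⟨h9, h10⟩)
    · have := hC.lls v hv.1 hv.2.1
      omega
    · have := hC.ias i h9 h7 h8
      omega
  have hB0 : pB A D dom m e e = ∅ := by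
    unfold pB
    refine filter_false_of_mem fun i hi => ?_
    obtain ⟨-, h7, h8⟩ := DB_dom hi
    rintro (⟨v, hv, h9, -⟩ | ⟨h9, h10⟩)
    · have := hC.rrs v hv.1 hv.2.1
      omega
    · have := hC.ibs i h9 h7 h8
      omega
  rw [hA0, hB0] at h6
  unfold KA at h6
  simp only [card_empty, Nat.sub_zero, Finset.not_nonempty_empty, if_false, Nat.add_zero] at h6
  have hI : (I0p A D dom m e e).card ≤ (I0 A D dom m).card := by
    unfold I0p
    exact card_le_card (filter_subset _ _)
  -- the four sets are disjoint subsets of `D`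
  have hAB : Disjoint (DA A D dom m) (DB A D dom m) := by
    rw [Finset.disjoint_left]
    intro x hx hy
    obtain ⟨-, h7, v, hv, hv', hvx⟩ := DA_dom hx
    obtain ⟨-, -, w, hw, hw', hwx⟩ := DB_dom hy
    have := hC.mprop v w hv hv' hw hw' (by omega)
    omega
  have hABI : Disjoint (DA A D dom m ∪ DB A D dom m) (I0 A D dom m) := by
    rw [Finset.disjoint_left]
    intro x hx hy
    unfold I0 at hy
    obtain ⟨-, -, h7, h8, -⟩ := mem_filter.1 hy
    rcases mem_union.1 hx with h | h
    · exact h7 h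
    · exact h8 h
  have hm : m ∉ (DA A D dom m ∪ DB A D dom m) ∪ I0 A D dom m := by
    intro h
    rcases mem_union.1 h with h | h
    · rcases mem_union.1 h with h | h
      · exact (DA_dom h).2.1 rfl
      · exact (DB_dom h).2.1 rfl
    · unfold I0 at h
      exact (mem_filter.1 h).2.2.2.2 rfl
  have hsub : (DA A D dom m ∪ DB A D dom m) ∪ I0 A D dom m ⊆ D := by
    intro x hx
    rcases mem_union.1 hx with h | h
    · rcases mem_union.1 h with h | h
      · exact (mem_filter.1 h).1
      · exact (mem_filter.1 h).1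
    · exact (mem_filter.1 h).1
  have hcard : ((DA A D dom m ∪ DB A D dom m) ∪ I0 A D dom m).card =
      (DA A D dom m).card + (DB A D dom m).card + (I0 A D dom m).card := by
    rw [card_union_of_disjoint hABI, card_union_of_disjoint hAB]
  by_cases hmn : m < n
  · rw [if_pos hmn] at h6
    have h7 : (insert m ((DA A D dom m ∪ DB A D dom m) ∪ I0 A D dom m)).card ≤ D.card :=
      card_le_card (insert_subset (hC.mD hmn) hsub)
    rw [card_insert_of_notMem hm] at h7
    omega
  · rw [if_neg hmn] at h6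
    have h7 := card_le_card hsub
    omega

end

end Comp

/-- Completeness. -/
theorem targetComplete : TargetComplete := by
  intro n A hA D₀ hD₀
  obtain ⟨D, dom, m, s, h1, hC⟩ := Comp.exists_ctx hA hD₀
  obtain ⟨q, r, c, a, b, h2, h3, h4⟩ := Comp.final hC
  exact ⟨m, q, r, c, a, b, hC.mle, by omega, h3, h4⟩

end Pool.Agent.SCG
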