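import Pool.Agent.SCG.Defs

/-!
# Every closed set of decisions extends to a complete one
-/

set_option autoImplicit false

open Relation

namespace Pool.Agent.SCG

namespace OrderAux

variable {V : Type} {G : SimpleGraph V}

/-- `Gam` from its four conditions. -/
lemma gmk {a b d c : V} (h1 : G.Adj a c) (h2 : ¬ G.Adj b c) (h3 : G.Adj b d) (h4 : ¬ G.Adj a d) :
    Gam G a b d c := ⟨h1, h2, h3, h4⟩

lemma gsymm {a b d c : V} (h : Gam G a b d c) : Gam G d c a b :=
  ⟨h.2.2.1.symm, fun h' => h.2.1 h'.symm, h.1.symm, fun h' => h.2.2.2 h'.symm⟩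

lemma gflip {a b d c : V} (h : Gam G a b d c) : Gam G b a c d :=
  ⟨h.2.2.1, h.2.2.2, h.1, h.2.1⟩

lemma ghp {a b d c : V} (h : Gam G a b d c) : Hp G d c :=
  ⟨⟨b, h.2.2.1.symm, fun h' => h.2.1 h'.symm⟩, ⟨a, h.1.symm, fun h' => h.2.2.2 h'.symm⟩⟩

lemma hpflip {a b : V} (h : Hp G a b) : Hp G b a := ⟨h.2, h.1⟩

/-- The transitive closure of a closed set of pairs is closed. -/
lemma closed_transGen {R : V → V → Prop} (hs : ∀ {a b}, R a b → Hp G a b)
    (hg : ∀ {a b d c}, R a b → Gam G a b d c → R d c) :
    ∀ {a c}, TransGen R a c → ∀ {d e}, Gam G a c d e → TransGen R d e := by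
  intro a c h
  induction h with
  | single h => exact fun hG => TransGen.single (hg h hG)
  | @tail b c hab hbc ih =>
    intro d e hG
    obtain ⟨hae, hce, hcd, had⟩ := hG
    by_cases hbe : G.Adj b e
    · by_cases hbd : G.Adj b d
      · -- both
        obtain ⟨g, hcg, hbg⟩ := (hs hbc).2
        have h1 : R g e := hg hbc (gmk hbe hce hcg hbg)
        by_cases hag : G.Adj a g
        · have h2 : TransGen R d g := ih (gmk hag hbg hbd had)
          exact h2.tail h1
        · have h2 : R a c := hg h1 (gsymm (gmk hae hce hcg hag))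
          exact TransGen.single (hg h2 (gmk hae hce hcd had))
      · exact TransGen.single (hg hbc (gmk hbe hce hcd hbd))
    · by_cases hbd : G.Adj b d
      · exact ih (gmk hae hbe hbd had)
      · -- none
        obtain ⟨g, hbg, hcg⟩ := (hs hbc).1
        have h1 : R d g := hg hbc (gmk hbg hcg hcd hbd)
        by_cases hag : G.Adj a g
        · have h2 : R a c := hg h1 (gsymm (gmk hag hcg hcd had))
          exact TransGen.single (hg h2 (gmk hae hce hcd had))
        · have h2 : TransGen R g e := ih (gmk hae hbe hbg hag)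
          exact TransGen.head h1 h2

/-- A closed antisymmetric set: composable pairs with incomparable neighbourhoods. -/
lemma hp_comp {R : V → V → Prop} (hg : ∀ {a b d c}, R a b → Gam G a b d c → R d c)
    (ha : ∀ {a b}, R a b → ¬ R b a) {a b c : V} (hab : R a b) (hbc : R b c) (h1 : Hp G a b)
    (h2 : Hp G b c) : Hp G a c := by
  constructor
  · -- a neighbour of `a` not of `c`
    by_contra hcon
    push Not at hcon
    obtain ⟨u, hau, hbu⟩ := h1.1
    obtain ⟨w, hbw, hcw⟩ := h2.1
    have hcu : G.Adj c u := hcon u hau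
    have haw : ¬ G.Adj a w := fun h => hcw (hcon w h)
    have e1 : R w u := hg hab (gmk hau hbu hbw haw)
    have e2 : R u w := hg hbc (gmk hbw hcw hcu hbu)
    exact ha e1 e2
  · by_contra hcon
    push Not at hcon
    obtain ⟨u, hcu, hbu⟩ := h2.2
    obtain ⟨w, hbw, haw⟩ := h1.2
    have hau : G.Adj a u := hcon u hcu
    have hcw : ¬ G.Adj c w := fun h => haw (hcon w h)
    have e1 : R w u := hg hab (gmk hau hbu hbw haw)
    have e2 : R u w := hg hbc (gmk hbw hcw hcu hbu)
    exact ha e1 e2

/-- The pair `(p, q)` can be extended outside of `P` and `U`. -/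
def Bad (P U : V → V → Prop) (p q : V) : Prop :=
  (∃ z, P z p ∧ ¬ (P z q ∨ U z q)) ∨ ∃ w, P q w ∧ ¬ (P p w ∨ U p w)

lemma bad_step_one {P U : V → V → Prop} (hs : ∀ {a b}, P a b → Hp G a b)
    (hP : ∀ {a b d c}, P a b → Gam G a b d c → P d c)
    (hU : ∀ {a b d c}, U a b → Gam G a b d c → U d c)
    (hd : ∀ {a b}, P a b → ¬ U b a) {p q d e : V} (hpq : U p q) (hG : Gam G p q d e)
    {z : V} (hz : P z p) (hzq : ¬ (P z q ∨ U z q)) : Bad P U d e := by
  have hde : U d e := hU hpq hG
  obtain ⟨hpe, hqe, hqd, hpd⟩ := hG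
  have hback : ∀ {s t : V}, Gam G z q s t → ¬ (P s t ∨ U s t) := by
    intro s t hst h
    rcases h with h | h
    · exact hzq (Or.inl (hP h (gsymm hst)))
    · exact hzq (Or.inr (hU h (gsymm hst)))
  by_cases hze : G.Adj z e
  · by_cases hzd : G.Adj z d
    · obtain ⟨f, hpf, hzf⟩ := (hs hz).2
      have h1 : P f d := hP hz (gmk hzd hpd hpf hzf)
      by_cases hqf : G.Adj q f
      · exact Or.inl ⟨f, h1, hback (gmk hze hqe hqf hzf)⟩
      · exact absurd (hU hpq (gmk hpf hqf hqd hpd)) (hd h1)
    · exact absurd (Or.inr hde) (hback (gmk hze hqe hqd hzd))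
  · by_cases hzd : G.Adj z d
    · exact absurd hde (hd (hP hz (gmk hzd hpd hpe hze)))
    · obtain ⟨g, hzg, hpg⟩ := (hs hz).1
      have h1 : P e g := hP hz (gmk hzg hpg hpe hze)
      by_cases hqg : G.Adj q g
      · exact absurd (hU hpq (gmk hpe hqe hqg hpg)) (hd h1)
      · exact Or.inr ⟨g, h1, hback (gmk hzg hqg hqd hzd)⟩

lemma bad_step {P U : V → V → Prop} (hs : ∀ {a b}, P a b → Hp G a b)
    (hP : ∀ {a b d c}, P a b → Gam G a b d c → P d c)
    (hU : ∀ {a b d c}, U a b → Gam G a b d c → U d c)
    (hd : ∀ {a b}, P a b → ¬ U b a) {p q d e : V} (hpq : U p q) (hG : Gam G p q d e)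
    (hb : Bad P U p q) : Bad P U d e := by
  rcases hb with ⟨z, hz, hzq⟩ | ⟨w, hw, hpw⟩
  · exact bad_step_one hs hP hU hd hpq hG hz hzq
  · have := bad_step_one (G := G) (P := fun a b => P b a) (U := fun a b => U b a)
      (fun h => hpflip (hs h)) (fun h h' => hP h (gflip h')) (fun h h' => hU h (gflip h'))
      (fun h => hd h) (p := q) (q := p) (d := e) (e := d) hpq (gflip hG) (z := w) hw hpw
    rcases this with ⟨z, hz, hz'⟩ | ⟨z, hz, hz'⟩
    · exact Or.inr ⟨z, hz, hz'⟩
    · exact Or.inl ⟨z, hz, hz'⟩

/-- If `P` and `U` compose well and `U` is acyclic, then `P ∪ U` is acyclic. -/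
lemma transGen_sub {P U : V → V → Prop} (hP : ∀ {a b c}, P a b → P b c → P a c)
    (h1 : ∀ {a b c}, P a b → U b c → P a c ∨ U a c)
    (h2 : ∀ {a b c}, U a b → P b c → P a c ∨ U a c) {a b : V}
    (h : TransGen (fun a b => P a b ∨ U a b) a b) : P a b ∨ TransGen U a b := by
  have key : ∀ {a b}, TransGen U a b → ∀ {c}, P b c → P a c ∨ TransGen U a c := by
    intro a b hab
    induction hab with
    | single h =>
      intro c hc
      rcases h2 h hc with h' | h'
      · exact Or.inl h'
      · exact Or.inr (TransGen.single h')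
    | @tail b b' hab hbb' ih =>
      intro c hc
      rcases h2 hbb' hc with h' | h'
      · exact ih h'
      · exact Or.inr (hab.tail h')
  induction h with
  | single h =>
    rcases h with h | h
    · exact Or.inl h
    · exact Or.inr (TransGen.single h)
  | @tail b c hab hbc ih =>
    rcases ih with ih | ih <;> rcases hbc with hbc | hbc
    · exact Or.inl (hP ih hbc)
    · rcases h1 ih hbc with h' | h'
      · exact Or.inl h'
      · exact Or.inr (TransGen.single h')
    · exact key ih hbc
    · exact Or.inr (ih.tail hbc)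

/-- One more class of decisions. -/
lemma extend_one [Finite V] {L : V → V → Prop} (hL : Lin G L) {P : V → V → Prop} (hP : Good G P)
    {a₀ b₀ : V} (h0 : Hp G a₀ b₀) (hab : ¬ P a₀ b₀) (hba : ¬ P b₀ a₀) :
    ∃ Q, Good G Q ∧ (∀ a b, P a b → Q a b) ∧ ∃ a b, Q a b ∧ ¬ P a b := by
  classical
  have := Fintype.ofFinite V
  -- an undecided pair with minimal weight
  let wt : V × V → ℕ := fun p => (Finset.univ.filter fun z => P z p.1).card +
    (Finset.univ.filter fun w => P p.2 w).card
  let S : Set (V × V) := {p | Hp G p.1 p.2 ∧ ¬ P p.1 p.2 ∧ ¬ P p.2 p.1}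
  have hS : S.Nonempty := ⟨(a₀, b₀), h0, hab, hba⟩
  obtain ⟨⟨x, y⟩, ⟨hxy, hx1, hx2⟩, hmin⟩ := Set.exists_min_image S wt (Set.toFinite S) hS
  simp only at hxy hx1 hx2
  -- its class
  let st : V × V → V × V → Prop := fun s t => Gam G s.1 s.2 t.1 t.2
  let U : V → V → Prop := fun p q => ReflTransGen st (x, y) (p, q)
  have hUxy : U x y := ReflTransGen.refl
  have hUg : ∀ {a b d c}, U a b → Gam G a b d c → U d c := fun h h' => ReflTransGen.tail h h'
  have hUs : ∀ {a b}, U a b → Hp G a b := by
    intro a b h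
    rcases ReflTransGen.cases_tail h with h | ⟨t, -, h⟩
    · simp only [Prod.mk.injEq] at h
      rw [h.1, h.2]
      exact hxy
    · exact ghp h
  have hd : ∀ {a b}, P a b → ¬ U b a := by
    have key : ∀ s, ReflTransGen st (x, y) s → ¬ P s.2 s.1 := by
      intro s hs
      induction hs with
      | refl => exact hx2
      | tail _ hst ih => exact fun h => ih (hP.gam h (gflip (gsymm hst)))
    intro a b h h'
    exact key _ h' h
  have hxyne : x ≠ y := by
    rintro rfl
    obtain ⟨c, h1, h2⟩ := hxy.1
    exact h2 h1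
  have hUL : ∃ M : V → V → Prop, (∀ {a b}, U a b → M a b) ∧ (∀ a, ¬ M a a) ∧
      ∀ {a b c}, M a b → M b c → M a c := by
    rcases hL.total x y hxyne with h | h
    · refine ⟨L, ?_, hL.irr, fun h1 h2 => hL.trans h1 h2⟩
      have key : ∀ s, ReflTransGen st (x, y) s → L s.1 s.2 := by
        intro s hs
        induction hs with
        | refl => exact h
        | tail _ hst ih => exact hL.gam ih hst
      intro a b h
      exact key _ h
    · refine ⟨fun a b => L b a, ?_, hL.irr, fun h1 h2 => hL.trans h2 h1⟩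
      have key : ∀ s, ReflTransGen st (x, y) s → L s.2 s.1 := by
        intro s hs
        induction hs with
        | refl => exact h
        | tail _ hst ih => exact hL.gam ih (gflip hst)
      intro a b h
      exact key _ h
  obtain ⟨M, hUM, hMi, hMt⟩ := hUL
  have hUT : ∀ {a b}, TransGen U a b → M a b := by
    intro a b h
    induction h with
    | single h => exact hUM h
    | tail _ h ih => exact hMt ih (hUM h)
  -- the union
  let R : V → V → Prop := fun a b => P a b ∨ U a b
  have hRg : ∀ {a b d c}, R a b → Gam G a b d c → R d c := by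
    rintro a b d c (h | h) hG
    · exact Or.inl (hP.gam h hG)
    · exact Or.inr (hUg h hG)
  have hRs : ∀ {a b}, R a b → Hp G a b := by
    rintro a b (h | h)
    · exact hP.sub h
    · exact hUs h
  have hRa : ∀ {a b}, R a b → ¬ R b a := by
    rintro a b (h | h) (h' | h')
    · exact hP.irr _ (hP.trans h h')
    · exact hd h h'
    · exact hd h' h
    · exact hMi _ (hMt (hUM h) (hUM h'))
  have hc1 : ∀ z, P z x → P z y := by
    intro z hz
    by_contra hzy
    have h1 : (z, y) ∈ S := by
      refine ⟨hp_comp hRg hRa (Or.inl hz) (Or.inr hUxy) (hP.sub hz) hxy, hzy, fun h => ?_⟩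
      exact hx2 (hP.trans h hz)
    have h2 := hmin _ h1
    have h3 : (Finset.univ.filter fun w => P w z).card <
        (Finset.univ.filter fun w => P w x).card := by
      refine Finset.card_lt_card ((Finset.ssubset_iff_of_subset ?_).2 ⟨z, ?_, ?_⟩)
      · intro w hw
        simp only [Finset.mem_filter, Finset.mem_univ, true_and] at hw ⊢
        exact hP.trans hw hz
      · simpa using hz
      · simpa using hP.irr z
    simp only [wt] at h2
    omega
  have hc2 : ∀ w, P y w → P x w := by
    intro w hw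
    by_contra hxw
    have h1 : (x, w) ∈ S := by
      refine ⟨hp_comp hRg hRa (Or.inr hUxy) (Or.inl hw) hxy (hP.sub hw), hxw, fun h => ?_⟩
      exact hx2 (hP.trans hw h)
    have h2 := hmin _ h1
    have h3 : (Finset.univ.filter fun z => P w z).card <
        (Finset.univ.filter fun z => P y z).card := by
      refine Finset.card_lt_card ((Finset.ssubset_iff_of_subset ?_).2 ⟨w, ?_, ?_⟩)
      · intro z hz
        simp only [Finset.mem_filter, Finset.mem_univ, true_and] at hz ⊢
        exact hP.trans hw hz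
      · simpa using hw
      · simpa using hP.irr w
    simp only [wt] at h2
    omega
  have hbad : ∀ s, ReflTransGen st (x, y) s → ¬ Bad P U s.1 s.2 := by
    intro s hs
    induction hs with
    | refl =>
      rintro (⟨z, hz, hz'⟩ | ⟨w, hw, hw'⟩)
      · exact hz' (Or.inl (hc1 z hz))
      · exact hw' (Or.inl (hc2 w hw))
    | @tail s t hs hst ih =>
      intro hb
      exact ih (bad_step hP.sub hP.gam hUg hd (ReflTransGen.tail hs hst) (gsymm hst) hb)
  have h1 : ∀ {a b c}, P a b → U b c → P a c ∨ U a c := by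
    intro a b c hab hbc
    by_contra hcon
    exact hbad (b, c) hbc (Or.inl ⟨a, hab, hcon⟩)
  have h2 : ∀ {a b c}, U a b → P b c → P a c ∨ U a c := by
    intro a b c hab hbc
    by_contra hcon
    exact hbad (a, b) hab (Or.inr ⟨c, hbc, hcon⟩)
  have hQi : ∀ a, ¬ TransGen R a a := by
    intro a h
    rcases transGen_sub (P := P) (U := U) hP.trans h1 h2 h with h | h
    · exact hP.irr a h
    · exact hMi a (hUT h)
  have hQg : ∀ {a b}, TransGen R a b → ∀ {d c}, Gam G a b d c → TransGen R d c :=
    fun h => closed_transGen hRs hRg h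
  have hQs : ∀ {a b}, TransGen R a b → Hp G a b := by
    intro a b h
    induction h with
    | single h => exact hRs h
    | tail hab hbc ih =>
      exact hp_comp (R := TransGen R) (fun h h' => hQg h h')
        (fun h h' => hQi _ (h.trans h')) hab (TransGen.single hbc) ih (hRs hbc)
  exact ⟨TransGen R, ⟨hQs, fun h h' => hQg h h', fun h h' => h.trans h', hQi⟩,
    fun a b h => TransGen.single (Or.inl h), x, y, TransGen.single (Or.inr hUxy), hx1⟩

end OrderAux

/-- Every closed set of decisions extends to a complete one. -/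
theorem targetOrder : TargetOrder := by
  classical
  intro V _ G ⟨L, hL⟩ P hP
  have := Fintype.ofFinite V
  let cnt : (V → V → Prop) → ℕ := fun P => (Finset.univ.filter fun p : V × V => ¬ P p.1 p.2).card
  suffices H : ∀ (N : ℕ) (P : V → V → Prop), Good G P → cnt P = N →
      ∃ Q, Good G Q ∧ (∀ a b, P a b → Q a b) ∧ ∀ a b, Hp G a b → Q a b ∨ Q b a from
    H _ P hP rfl
  intro N
  induction N using Nat.strong_induction_on with
  | _ N ih =>
    intro P hP hN
    by_cases hc : ∀ a b, Hp G a b → P a b ∨ P b a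
    · exact ⟨P, hP, fun _ _ h => h, hc⟩
    · push Not at hc
      obtain ⟨a, b, hab, h1, h2⟩ := hc
      obtain ⟨Q, hQ, hPQ, c, d, hcd, hcd'⟩ := OrderAux.extend_one hL hP hab h1 h2
      have hlt : cnt Q < N := by
        rw [← hN]
        refine Finset.card_lt_card ((Finset.ssubset_iff_of_subset ?_).2 ⟨(c, d), ?_, ?_⟩)
        · intro p hp
          simp only [Finset.mem_filter, Finset.mem_univ, true_and] at hp ⊢
          exact fun h => hp (hPQ _ _ h)
        · simpa using hcd'
        · simpa using hcd
      obtain ⟨Q', hQ', h3, h4⟩ := ih _ hlt Q hQ rfl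
      exact ⟨Q', hQ', fun a b h => h3 a b (hPQ a b h), h4⟩

end Pool.Agent.SCG
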