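import Pool.Agent.SCG.Iter
import Pool.Agent.SCG.Order

/-!
# The greedy closure finds an ordering without `I₂`
-/

set_option autoImplicit false

namespace Pool.Agent.SCG

variable {n : ℕ}

/-- `M` is the adjacency matrix of `G`. -/
structure Rep (M : Rows) (G : SimpleGraph (Fin n)) : Prop where
  len : M.length = n
  adj : ∀ a b : Fin n, adjB M a b = true ↔ G.Adj a b
  out : ∀ i j, adjB M i j = true → i < n ∧ j < n

/-- The relation given by a list of pairs. -/
def rel (P : List (ℕ × ℕ)) (a b : Fin n) : Prop := (a.1, b.1) ∈ P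

theorem mem_vts {M : Rows} {i : ℕ} : i ∈ vts M ↔ i < M.length := by
  unfold vts; simp

theorem mem_prs {M : Rows} {p : ℕ × ℕ} : p ∈ prs M ↔ p.1 < M.length ∧ p.2 < M.length := by
  unfold prs
  simp only [List.mem_flatMap, List.mem_map, mem_vts]
  constructor
  · rintro ⟨i, hi, j, hj, rfl⟩
    exact ⟨hi, hj⟩
  · rintro ⟨h1, h2⟩
    exact ⟨p.1, h1, p.2, h2, rfl⟩

theorem clB_iff {M : Rows} {P : List (ℕ × ℕ)} {p : ℕ × ℕ} : clB M P p = true ↔
    p ∈ P ∨ (∃ c < M.length, (p.1, c) ∈ P ∧ (c, p.2) ∈ P) ∨ ∃ q ∈ P, gamB M q p = true := by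
  unfold clB
  simp only [Bool.or_eq_true, Bool.and_eq_true, List.any_eq_true, memL_iff, mem_vts, or_assoc]

theorem clB_ext {M : Rows} (S : List (ℕ × ℕ)) (s : ℕ × ℕ) (h : s ∈ S) : clB M S s = true :=
  clB_iff.2 (Or.inl h)

section

variable {M : Rows} {G : SimpleGraph (Fin n)} (hM : Rep M G)

include hM

theorem gamB_iff (a b d c : Fin n) :
    gamB M (a.1, b.1) (d.1, c.1) = true ↔ Gam G a b d c := by
  unfold gamB Gam
  simp only [Bool.and_eq_true, Bool.not_eq_true', ← Bool.not_eq_true, hM.adj]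
  tauto

theorem hpB_iff (a b : Fin n) : hpB M (a.1, b.1) = true ↔ Hp G a b := by
  unfold hpB Hp
  simp only [Bool.and_eq_true, List.any_eq_true, Bool.not_eq_true', ← Bool.not_eq_true, mem_vts]
  constructor
  · rintro ⟨⟨c, hc, h1, h2⟩, d, hd, h3, h4⟩
    rw [hM.len] at hc hd
    refine ⟨⟨⟨c, hc⟩, (hM.adj a ⟨c, hc⟩).1 h1, fun h => h2 ((hM.adj b ⟨c, hc⟩).2 h)⟩,
      ⟨d, hd⟩, (hM.adj b ⟨d, hd⟩).1 h3, fun h => h4 ((hM.adj a ⟨d, hd⟩).2 h)⟩
  · rintro ⟨⟨c, h1, h2⟩, d, h3, h4⟩
    refine ⟨⟨c.1, by rw [hM.len]; exact c.2, (hM.adj _ _).2 h1, fun h => h2 ((hM.adj _ _).1 h)⟩,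
      d.1, by rw [hM.len]; exact d.2, (hM.adj _ _).2 h3, fun h => h4 ((hM.adj _ _).1 h)⟩

/-- The closure. -/
theorem clo_gam {S : List (ℕ × ℕ)} {a b d c : Fin n}
    (h : rel (iter (prs M) (clB M) S) a b) (hG : Gam G a b d c) :
    rel (iter (prs M) (clB M) S) d c := by
  refine iter_closed clB_ext ?_ ?_
  · rw [mem_prs, hM.len]; exact ⟨d.2, c.2⟩
  · rw [clB_iff]
    exact Or.inr (Or.inr ⟨(a.1, b.1), h, (gamB_iff hM a b d c).2 hG⟩)

theorem clo_trans {S : List (ℕ × ℕ)} {a b c : Fin n}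
    (h : rel (iter (prs M) (clB M) S) a b) (h' : rel (iter (prs M) (clB M) S) b c) :
    rel (iter (prs M) (clB M) S) a c := by
  refine iter_closed clB_ext ?_ ?_
  · rw [mem_prs, hM.len]; exact ⟨a.2, c.2⟩
  · rw [clB_iff]
    exact Or.inr (Or.inl ⟨b.1, by rw [hM.len]; exact b.2, h, h'⟩)

theorem clo_contains {S : List (ℕ × ℕ)} {a b : Fin n} (h : rel S a b) :
    rel (iter (prs M) (clB M) S) a b := by
  refine iter_contains clB_ext h ?_
  rw [mem_prs, hM.len]
  exact ⟨a.2, b.2⟩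

theorem clo_least {S : List (ℕ × ℕ)} (hS : ∀ p ∈ S, p.1 < n ∧ p.2 < n) {T : Fin n → Fin n → Prop}
    (hg : ∀ {a b d c}, T a b → Gam G a b d c → T d c) (ht : ∀ {a b c}, T a b → T b c → T a c)
    (hST : ∀ a b, rel S a b → T a b) {a b : Fin n} (h : rel (iter (prs M) (clB M) S) a b) :
    T a b := by
  let T' : ℕ × ℕ → Prop := fun p => ∃ a b : Fin n, p = (a.1, b.1) ∧ T a b
  have key : ∀ p ∈ iter (prs M) (clB M) S, T' p := by
    refine iter_least T' ?_ ?_
    · intro S hS p hp h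
      rw [mem_prs, hM.len] at hp
      obtain ⟨p1, p2⟩ := p
      rw [clB_iff] at h
      rcases h with h | ⟨c, hc, h⟩ | ⟨q, hq, h⟩
      · exact hS _ h
      · obtain ⟨a, b, h1, h2⟩ := hS _ h.1
        obtain ⟨a', b', h3, h4⟩ := hS _ h.2
        simp only [Prod.mk.injEq] at h1 h3
        have : b = a' := Fin.ext (by omega)
        subst this
        exact ⟨a, b', by simp only [Prod.mk.injEq]; exact ⟨h1.1, h3.2⟩, ht h2 h4⟩
      · obtain ⟨a, b, rfl, h2⟩ := hS _ hq
        refine ⟨⟨p1, hp.1⟩, ⟨p2, hp.2⟩, rfl, hg h2 ?_⟩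
        exact (gamB_iff hM a b ⟨p1, hp.1⟩ ⟨p2, hp.2⟩).1 h
    · intro p hp
      have := hS p hp
      exact ⟨⟨p.1, this.1⟩, ⟨p.2, this.2⟩, rfl, hST _ _ hp⟩
  obtain ⟨a', b', h1, h2⟩ := key _ h
  simp only [Prod.mk.injEq] at h1
  have e1 : a = a' := Fin.ext h1.1
  have e2 : b = b' := Fin.ext h1.2
  rw [e1, e2]
  exact h2

theorem irrB_iff {P : List (ℕ × ℕ)} : irrB M P = true ↔ ∀ a : Fin n, ¬ rel P a a := by
  unfold irrB rel
  rw [List.all_eq_true]
  simp only [mem_vts, hM.len, Bool.not_eq_true', ← Bool.not_eq_true, memL_iff]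
  exact ⟨fun h a => h a.1 a.2, fun h i hi => h ⟨i, hi⟩⟩

theorem addB_le {P : List (ℕ × ℕ)} {p : ℕ × ℕ} {a b : Fin n} (h : rel P a b) :
    rel (addB M P p) a b := by
  unfold addB
  cases (hpB M p && irrB M (iter (prs M) (clB M) (p :: P)))
  · exact h
  · exact clo_contains hM (List.mem_cons_of_mem _ h)

theorem addB_prs {P : List (ℕ × ℕ)} (hP : ∀ p ∈ P, p.1 < n ∧ p.2 < n) {p : ℕ × ℕ} :
    ∀ q ∈ addB M P p, q.1 < n ∧ q.2 < n := by
  unfold addB
  cases (hpB M p && irrB M (iter (prs M) (clB M) (p :: P)))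
  · exact hP
  · intro q hq
    have := iter_sub hq
    rw [mem_prs, hM.len] at this
    exact this

theorem addB_good {P : List (ℕ × ℕ)} (hP : ∀ p ∈ P, p.1 < n ∧ p.2 < n) (hG : Good G (rel P))
    {p : ℕ × ℕ} (hp : p.1 < n ∧ p.2 < n) : Good G (rel (addB M P p)) := by
  unfold addB
  rcases h : (hpB M p && irrB M (iter (prs M) (clB M) (p :: P))) with _ | _
  · exact hG
  · rw [Bool.and_eq_true] at h
    obtain ⟨h1, h2⟩ := h
    rw [irrB_iff hM] at h2
    have hp1 : Hp G ⟨p.1, hp.1⟩ ⟨p.2, hp.2⟩ := (hpB_iff hM ⟨p.1, hp.1⟩ ⟨p.2, hp.2⟩).1 h1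
    show Good G (rel (iter (prs M) (clB M) (p :: P)))
    refine ⟨?_, fun h h' => clo_gam hM h h', fun h h' => clo_trans hM h h', h2⟩
    intro a b hab
    have key := clo_least hM (S := p :: P) (T := fun a b =>
      rel (iter (prs M) (clB M) (p :: P)) a b ∧ Hp G a b) ?_ ?_ ?_ ?_ hab
    · exact key.2
    · intro q hq
      rcases List.mem_cons.1 hq with rfl | hq
      · exact hp
      · exact hP q hq
    · exact fun h h' => ⟨clo_gam hM h.1 h', OrderAux.ghp h'⟩
    · intro a b c hab hbc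
      refine ⟨clo_trans hM hab.1 hbc.1, ?_⟩
      exact OrderAux.hp_comp (R := rel (iter (prs M) (clB M) (p :: P)))
        (fun h h' => clo_gam hM h h') (fun h h' => h2 _ (clo_trans hM h h')) hab.1 hbc.1 hab.2 hbc.2
    · intro a b hab
      refine ⟨clo_contains hM hab, ?_⟩
      rcases List.mem_cons.1 hab with h | h
      · have e1 : a = ⟨p.1, hp.1⟩ := Fin.ext (congrArg Prod.fst h)
        have e2 : b = ⟨p.2, hp.2⟩ := Fin.ext (congrArg Prod.snd h)
        rw [e1, e2]
        exact hp1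
      · exact hG.sub h

theorem fold_le (l : List (ℕ × ℕ)) {P : List (ℕ × ℕ)} {a b : Fin n} (h : rel P a b) :
    rel (l.foldl (addB M) P) a b := by
  induction l generalizing P with
  | nil => exact h
  | cons q l ih => exact ih (addB_le hM h)

theorem fold_prs (l : List (ℕ × ℕ)) {P : List (ℕ × ℕ)} (hP : ∀ p ∈ P, p.1 < n ∧ p.2 < n) :
    ∀ q ∈ l.foldl (addB M) P, q.1 < n ∧ q.2 < n := by
  induction l generalizing P with
  | nil => exact hP
  | cons q l ih => exact ih (addB_prs hM hP)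

theorem fold_good (l : List (ℕ × ℕ)) (hl : ∀ p ∈ l, p.1 < n ∧ p.2 < n) {P : List (ℕ × ℕ)}
    (hP : ∀ p ∈ P, p.1 < n ∧ p.2 < n) (hG : Good G (rel P)) :
    Good G (rel (l.foldl (addB M) P)) := by
  induction l generalizing P with
  | nil => exact hG
  | cons q l ih =>
    exact ih (fun p hp => hl p (List.mem_cons_of_mem _ hp)) (addB_prs hM hP)
      (addB_good hM hP hG (hl q List.mem_cons_self))

theorem fold_total (l : List (ℕ × ℕ)) {P : List (ℕ × ℕ)} (hP : ∀ p ∈ P, p.1 < n ∧ p.2 < n)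
    {T : Fin n → Fin n → Prop} (hT : Good G T)
    (hRT : ∀ a b, rel (l.foldl (addB M) P) a b → T a b) {a b : Fin n} (hab : T a b)
    (hl : (a.1, b.1) ∈ l) : rel (l.foldl (addB M) P) a b := by
  induction l generalizing P with
  | nil => simp at hl
  | cons q l ih =>
    rcases List.mem_cons.1 hl with h | h
    · rw [List.foldl_cons]
      refine fold_le hM l ?_
      rw [← h]
      have hPT : ∀ c d, rel P c d → T c d := fun c d hcd =>
        hRT c d (fold_le hM l (addB_le hM hcd))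
      have h1 : hpB M (a.1, b.1) = true := (hpB_iff hM a b).2 (hT.sub hab)
      have h2 : irrB M (iter (prs M) (clB M) ((a.1, b.1) :: P)) = true := by
        rw [irrB_iff hM]
        intro c hc
        refine hT.irr c (clo_least hM (S := (a.1, b.1) :: P) ?_ hT.gam hT.trans ?_ hc)
        · intro p hp
          rcases List.mem_cons.1 hp with rfl | hp
          · exact ⟨a.2, b.2⟩
          · exact hP p hp
        · intro c d hcd
          rcases List.mem_cons.1 hcd with h | h
          · have e1 : c = a := Fin.ext (congrArg Prod.fst h)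
            have e2 : d = b := Fin.ext (congrArg Prod.snd h)
            rw [e1, e2]
            exact hab
          · exact hPT c d h
      unfold addB
      rw [h1, h2]
      exact clo_contains hM List.mem_cons_self
    · exact ih (addB_prs hM hP) hRT h

omit hM in
theorem good_nil : Good G (rel ([] : List (ℕ × ℕ))) :=
  ⟨fun h => absurd h List.not_mem_nil, fun h => absurd h List.not_mem_nil,
    fun h => absurd h List.not_mem_nil, fun _ h => absurd h List.not_mem_nil⟩

theorem decs_good : Good G (rel (decs M)) := by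
  unfold decs
  refine fold_good hM _ ?_ (by simp) good_nil
  intro p hp
  rw [mem_prs, hM.len] at hp
  exact hp

theorem decs_prs : ∀ q ∈ decs M, q.1 < n ∧ q.2 < n := by
  unfold decs
  exact fold_prs hM _ (by simp)

/-- The decisions are complete if there is an ordering without `I₂`. -/
theorem decs_total (hL : ∃ L, Lin G L) {a b : Fin n} (hab : Hp G a b) :
    rel (decs M) a b ∨ rel (decs M) b a := by
  obtain ⟨T, hT, hle, htot⟩ := targetOrder (Fin n) G hL _ (decs_good hM)
  have hmem : ∀ a b : Fin n, (a.1, b.1) ∈ prs M := fun a b => by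
    rw [mem_prs, hM.len]; exact ⟨a.2, b.2⟩
  rcases htot a b hab with h | h
  · left
    exact fold_total hM _ (by simp) hT hle h (hmem a b)
  · right
    exact fold_total hM _ (by simp) hT hle h (hmem b a)

end

end Pool.Agent.SCG
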