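import Pool.Agent.SCG.Statement

/-!
# Domination on strong comparability graphs: the search and the orderings (working definitions)

MP_360560_lc. The domination problem on strong comparability graphs is solvable in polynomial time.
-/

set_option autoImplicit false

open Finset

namespace Pool.Agent.SCG

/-! ## Ordered adjacency matrices -/

/-- A symmetric adjacency relation on `0, ..., n-1` without loops and without `I₂`. -/
structure Mat (n : ℕ) (A : ℕ → ℕ → Prop) : Prop where
  symm : ∀ {i j}, A i j → A j i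
  irr : ∀ i, ¬ A i i
  lt : ∀ {i j}, A i j → i < n
  i2 : ∀ {i j k l}, i < j → k < l → A i k → A j l → A i l ∨ A j k

/-- `D` dominates `0, ..., n-1`. -/
def DomSet (n : ℕ) (A : ℕ → ℕ → Prop) (D : Finset ℕ) : Prop :=
  D ⊆ range n ∧ ∀ v < n, v ∈ D ∨ ∃ u ∈ D, A v u

/-- `v` is dominated by one of the registers `m, a, b` (the value `n` means empty). -/
def Hit (A : ℕ → ℕ → Prop) (m a b v : ℕ) : Prop :=
  v = m ∨ v = a ∨ v = b ∨ A v m ∨ A v a ∨ A v b

/-- The search: `Reach n A m q r c a b` means that with cost `q` one can reach the state where the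
first `r` and the last `c` vertices are processed, and the registers contain `m, a, b`. -/
inductive Reach (n : ℕ) (A : ℕ → ℕ → Prop) (m : ℕ) : ℕ → ℕ → ℕ → ℕ → ℕ → Prop
  | start0 : m = n → Reach n A m 0 0 0 n n
  | start1 : m < n → Reach n A m 1 0 0 n n
  | setA {q r c a b a' : ℕ} : Reach n A m q r c a b → a' < n → Reach n A m (q + 1) r c a' b
  | setB {q r c a b b' : ℕ} : Reach n A m q r c a b → b' < n → Reach n A m (q + 1) r c a b'
  | left {q r c a b : ℕ} : Reach n A m q r c a b → r + c < n → Hit A m a b r →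
      Reach n A m q (r + 1) c a b
  | leftPay {q r c a b : ℕ} : Reach n A m q r c a b → r + c < n → Reach n A m (q + 1) (r + 1) c a b
  | right {q r c a b w : ℕ} : Reach n A m q r c a b → r + c < n → w + c + 1 = n →
      Hit A m a b w → Reach n A m q r (c + 1) a b
  | rightPay {q r c a b : ℕ} : Reach n A m q r c a b → r + c < n →
      Reach n A m (q + 1) r (c + 1) a b

/-- JOB SOUND. -/
def TargetSound : Prop :=
  ∀ (n : ℕ) (A : ℕ → ℕ → Prop), Mat n A → ∀ m q r c a b : ℕ, Reach n A m q r c a b → r + c = n →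
    ∃ D : Finset ℕ, DomSet n A D ∧ D.card ≤ q

/-- JOB COMPLETE. -/
def TargetComplete : Prop :=
  ∀ (n : ℕ) (A : ℕ → ℕ → Prop), Mat n A → ∀ D : Finset ℕ, DomSet n A D →
    ∃ m q r c a b : ℕ, m ≤ n ∧ q ≤ D.card ∧ r + c = n ∧ Reach n A m q r c a b

/-! ## Orderings -/

/-- The basic forcing relation: `(a, b)` forces `(d, c)`. -/
def Gam {V : Type} (G : SimpleGraph V) (a b d c : V) : Prop :=
  G.Adj a c ∧ ¬ G.Adj b c ∧ G.Adj b d ∧ ¬ G.Adj a d

/-- Pairs with incomparable neighbourhoods. -/
def Hp {V : Type} (G : SimpleGraph V) (a b : V) : Prop :=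
  (∃ c, G.Adj a c ∧ ¬ G.Adj b c) ∧ ∃ d, G.Adj b d ∧ ¬ G.Adj a d

/-- Closed sets of decisions. -/
structure Good {V : Type} (G : SimpleGraph V) (P : V → V → Prop) : Prop where
  sub : ∀ {a b}, P a b → Hp G a b
  gam : ∀ {a b d c}, P a b → Gam G a b d c → P d c
  trans : ∀ {a b c}, P a b → P b c → P a c
  irr : ∀ a, ¬ P a a

/-- Strict linear orders without `I₂`. -/
structure Lin {V : Type} (G : SimpleGraph V) (L : V → V → Prop) : Prop where
  gam : ∀ {a b d c}, L a b → Gam G a b d c → L d c
  trans : ∀ {a b c}, L a b → L b c → L a c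
  irr : ∀ a, ¬ L a a
  total : ∀ a b, a ≠ b → L a b ∨ L b a

/-- ORDER: every closed set of decisions extends to a complete one. -/
def TargetOrder : Prop :=
  ∀ (V : Type) [Finite V] (G : SimpleGraph V), (∃ L, Lin G L) → ∀ P, Good G P →
    ∃ Q, Good G Q ∧ (∀ a b, P a b → Q a b) ∧ ∀ a b, Hp G a b → Q a b ∨ Q b a

end Pool.Agent.SCG
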