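import Pool.Agent.SCG.Algo

/-!
# The iteration: stable, least, monotone
-/

set_option autoImplicit false

namespace Pool.Agent.SCG

variable {α : Type} [DecidableEq α]

theorem memL_iff {S : List α} {s : α} : memL S s = true ↔ s ∈ S := by
  unfold memL
  simp

omit [DecidableEq α] in
/-- Induction along the iteration. -/
theorem iter_induct {U : List α} {F : List α → α → Bool} (Q : List α → Prop)
    (hQ : ∀ S, Q S → Q (U.filter (fun s => F S s))) {S : List α} (hS : Q S) :
    Q (iter U F S) := by
  unfold iter
  have key : ∀ (l : List α) (S : List α), Q S →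
      Q (l.foldl (fun S _ => U.filter (fun s => F S s)) S) := by
    intro l
    induction l with
    | nil => exact fun S h => h
    | cons a l ih => exact fun S h => ih _ (hQ S h)
  exact key _ _ (hQ _ hS)

omit [DecidableEq α] in
theorem iter_sub {U : List α} {F : List α → α → Bool} {S : List α} {s : α}
    (h : s ∈ iter U F S) : s ∈ U := by
  unfold iter at h
  have key : ∀ (l : List α) (S : List α), (∀ s ∈ S, s ∈ U) →
      ∀ s ∈ l.foldl (fun S _ => U.filter (fun s => F S s)) S, s ∈ U := by
    intro l
    induction l with
    | nil => exact fun S h => h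
    | cons a l ih => exact fun S _ => ih _ (fun s hs => (List.mem_filter.1 hs).1)
  exact key _ _ (fun s hs => (List.mem_filter.1 hs).1) s h

omit [DecidableEq α] in
theorem iter_least {U : List α} {F : List α → α → Bool} {S : List α} (T : α → Prop)
    (hT : ∀ S : List α, (∀ s ∈ S, T s) → ∀ s ∈ U, F S s = true → T s) (hS : ∀ s ∈ S, T s) :
    ∀ s ∈ iter U F S, T s :=
  iter_induct (fun S => ∀ s ∈ S, T s)
    (fun S h s hs => hT S h s (List.mem_filter.1 hs).1 (List.mem_filter.1 hs).2) hS

omit [DecidableEq α] in
theorem iter_contains {U : List α} {F : List α → α → Bool}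
    (hF : ∀ (S : List α) (s : α), s ∈ S → F S s = true) {S : List α} {s : α} (hs : s ∈ S)
    (hsU : s ∈ U) : s ∈ iter U F S :=
  iter_induct (fun S => s ∈ S) (fun S h => List.mem_filter.2 ⟨hsU, hF S s h⟩) hs

omit [DecidableEq α] in
theorem filter_sublist_of {U : List α} {f g : α → Bool} (h : ∀ a ∈ U, f a = true → g a = true) :
    (U.filter f).Sublist (U.filter g) := by
  have h1 : U.filter f = (U.filter g).filter f := by
    rw [List.filter_filter]
    refine List.filter_congr fun a ha => ?_
    have := h a ha
    cases hf : f a
    · rfl
    · simp [this hf]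
  rw [h1]
  exact List.filter_sublist

omit [DecidableEq α] in
/-- The result of the iteration is closed. -/
theorem iter_closed {U : List α} {F : List α → α → Bool}
    (hF : ∀ (S : List α) (s : α), s ∈ S → F S s = true) {S : List α} {s : α} (hs : s ∈ U)
    (h : F (iter U F S) s = true) : s ∈ iter U F S := by
  let Φ : List α → List α := fun S => U.filter (fun s => F S s)
  have hstep : ∀ f : α → Bool, Φ (U.filter f) = U.filter f ∨
      (U.filter f).length < (Φ (U.filter f)).length := by
    intro f
    have h1 : (U.filter f).Sublist (Φ (U.filter f)) :=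
      filter_sublist_of (fun a ha hfa => hF _ _ (List.mem_filter.2 ⟨ha, hfa⟩))
    rcases h1.length_le.lt_or_eq with h2 | h2
    · exact Or.inr h2
    · exact Or.inl (h1.eq_of_length h2).symm
  have key : ∀ (l : List α) (f : α → Bool), ∃ g : α → Bool,
      l.foldl (fun S _ => Φ S) (U.filter f) = U.filter g ∧
      (Φ (U.filter g) = U.filter g ∨ l.length + (U.filter f).length ≤ (U.filter g).length) := by
    intro l
    induction l with
    | nil => intro f; exact ⟨f, rfl, Or.inr (by simp)⟩
    | cons a l ih =>
      intro f
      obtain ⟨g, hg, hg'⟩ := ih (fun s => F (U.filter f) s)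
      refine ⟨g, hg, ?_⟩
      rcases hg' with h1 | h1
      · exact Or.inl h1
      · rcases hstep f with h2 | h2
        · left
          have h3 : ∀ l : List α, l.foldl (fun S _ => Φ S) (U.filter f) = U.filter f := by
            intro l
            induction l with
            | nil => rfl
            | cons b l ih => rw [List.foldl_cons, h2, ih]
          have h4 : U.filter g = U.filter f := by
            rw [← hg]
            show l.foldl (fun S _ => Φ S) (Φ (U.filter f)) = _
            rw [h2, h3]
          rw [h4, h2]
        · right
          rw [List.length_cons]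
          have h5 : (U.filter (fun s => F (U.filter f) s)).length = (Φ (U.filter f)).length := rfl
          omega
  obtain ⟨g, hg, hg'⟩ := key U (fun s => F S s)
  have hR : iter U F S = U.filter g := hg
  rw [hR] at h ⊢
  rcases hg' with h1 | h1
  · rw [← h1]
    exact List.mem_filter.2 ⟨hs, h⟩
  · have h2 : (U.filter g).length ≤ U.length := List.length_filter_le _ _
    have h3 : U.filter g = U := List.filter_sublist.eq_of_length (by omega)
    rw [h3]
    exact hs

end Pool.Agent.SCG
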