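import Pool.Agent.SCG.Defs

/-!
# Soundness of the search
-/

set_option autoImplicit false

open Finset

namespace Pool.Agent.SCG

namespace SoundAux

/-- The set of paid vertices. -/
structure Inv (n : ℕ) (A : ℕ → ℕ → Prop) (m q r c a b : ℕ) (S : Finset ℕ) : Prop where
  sub : S ⊆ range n
  card : S.card ≤ q
  m : m < n → m ∈ S
  a : a < n → a ∈ S
  b : b < n → b ∈ S
  dom : ∀ v < n, v < r ∨ n ≤ v + c → v ∈ S ∨ ∃ u ∈ S, A v u

lemma hit_dom {n : ℕ} {A : ℕ → ℕ → Prop} (hA : Mat n A) {m q r c a b : ℕ} {S : Finset ℕ}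
    (h : Inv n A m q r c a b S) {v : ℕ} (hv : v < n) (hh : Hit A m a b v) :
    v ∈ S ∨ ∃ u ∈ S, A v u := by
  rcases hh with rfl | rfl | rfl | hh | hh | hh
  · exact Or.inl (h.m hv)
  · exact Or.inl (h.a hv)
  · exact Or.inl (h.b hv)
  · exact Or.inr ⟨m, h.m (hA.lt (hA.symm hh)), hh⟩
  · exact Or.inr ⟨a, h.a (hA.lt (hA.symm hh)), hh⟩
  · exact Or.inr ⟨b, h.b (hA.lt (hA.symm hh)), hh⟩

lemma inv_insert {n : ℕ} {A : ℕ → ℕ → Prop} {m q r c a b : ℕ} {S : Finset ℕ}
    (h : Inv n A m q r c a b S) {x : ℕ} (hx : x < n) :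
    insert x S ⊆ range n ∧ (insert x S).card ≤ q + 1 ∧
    ∀ v < n, v < r ∨ n ≤ v + c → v ∈ insert x S ∨ ∃ u ∈ insert x S, A v u := by
  refine ⟨?_, (card_insert_le _ _).trans (by have := h.card; omega), ?_⟩
  · intro y hy
    rcases mem_insert.1 hy with rfl | hy
    · exact mem_range.2 hx
    · exact h.sub hy
  · intro v hv hv'
    rcases h.dom v hv hv' with h1 | ⟨u, hu, h1⟩
    · exact Or.inl (mem_insert_of_mem h1)
    · exact Or.inr ⟨u, mem_insert_of_mem hu, h1⟩

lemma inv_of_reach {n : ℕ} {A : ℕ → ℕ → Prop} (hA : Mat n A) {m q r c a b : ℕ}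
    (h : Reach n A m q r c a b) : ∃ S, Inv n A m q r c a b S := by
  induction h with
  | start0 h =>
    refine ⟨∅, ⟨by simp, by simp, by omega, by omega, by omega, ?_⟩⟩
    intro v hv hv'
    omega
  | start1 h =>
    refine ⟨{m}, ⟨by simpa using h, by simp, by simp, by omega, by omega, ?_⟩⟩
    intro v hv hv'
    omega
  | @setA q r c a b a' _ h ih =>
    obtain ⟨S, hS⟩ := ih
    obtain ⟨h1, h2, h3⟩ := inv_insert hS h
    exact ⟨insert a' S, ⟨h1, h2, fun h => mem_insert_of_mem (hS.m h),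
      fun _ => mem_insert_self _ _, fun h => mem_insert_of_mem (hS.b h), h3⟩⟩
  | @setB q r c a b b' _ h ih =>
    obtain ⟨S, hS⟩ := ih
    obtain ⟨h1, h2, h3⟩ := inv_insert hS h
    exact ⟨insert b' S, ⟨h1, h2, fun h => mem_insert_of_mem (hS.m h),
      fun h => mem_insert_of_mem (hS.a h), fun _ => mem_insert_self _ _, h3⟩⟩
  | @left q r c a b _ h hh ih =>
    obtain ⟨S, hS⟩ := ih
    refine ⟨S, ⟨hS.sub, hS.card, hS.m, hS.a, hS.b, ?_⟩⟩
    intro v hv hv'
    by_cases hr : v = r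
    · subst hr
      exact hit_dom hA hS hv hh
    · exact hS.dom v hv (by omega)
  | @leftPay q r c a b _ h ih =>
    obtain ⟨S, hS⟩ := ih
    obtain ⟨h1, h2, h3⟩ := inv_insert hS (x := r) (by omega)
    refine ⟨insert r S, ⟨h1, h2, fun h => mem_insert_of_mem (hS.m h),
      fun h => mem_insert_of_mem (hS.a h), fun h => mem_insert_of_mem (hS.b h), ?_⟩⟩
    intro v hv hv'
    by_cases hr : v = r
    · subst hr
      exact Or.inl (mem_insert_self _ _)
    · exact h3 v hv (by omega)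
  | @right q r c a b w _ h hw hh ih =>
    obtain ⟨S, hS⟩ := ih
    refine ⟨S, ⟨hS.sub, hS.card, hS.m, hS.a, hS.b, ?_⟩⟩
    intro v hv hv'
    by_cases hr : v = w
    · subst hr
      exact hit_dom hA hS hv hh
    · exact hS.dom v hv (by omega)
  | @rightPay q r c a b _ h ih =>
    obtain ⟨S, hS⟩ := ih
    obtain ⟨h1, h2, h3⟩ := inv_insert hS (x := n - c - 1) (by omega)
    refine ⟨insert (n - c - 1) S, ⟨h1, h2, fun h => mem_insert_of_mem (hS.m h),
      fun h => mem_insert_of_mem (hS.a h), fun h => mem_insert_of_mem (hS.b h), ?_⟩⟩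
    intro v hv hv'
    by_cases hr : v = n - c - 1
    · subst hr
      exact Or.inl (mem_insert_self _ _)
    · exact h3 v hv (by omega)

end SoundAux

/-- Soundness. -/
theorem targetSound : TargetSound := by
  intro n A hA m q r c a b h hrc
  obtain ⟨S, hS⟩ := SoundAux.inv_of_reach hA h
  exact ⟨S, ⟨hS.sub, fun v hv => hS.dom v hv (by omega)⟩, hS.card⟩

end Pool.Agent.SCG
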