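import Pool.Agent.SCG.Search
import Pool.Agent.SCG.Sound
import Pool.Agent.SCG.Complete

/-!
# Instances as strings, and the main theorem
-/

set_option autoImplicit false

open Finset

namespace Pool.Agent.SCG

open Pool.Agent.PT

open scoped Classical in
/-- The adjacency matrix. -/
noncomputable def rowsOf {n : ℕ} (G : SimpleGraph (Fin n)) : Rows :=
  (List.finRange n).map (fun i => (List.finRange n).map (fun j => decide (G.Adj i j)))

theorem getD_map_finRange {α : Type} {n : ℕ} (f : Fin n → α) (d : α) (i : ℕ) :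
    ((List.finRange n).map f).getD i d = if h : i < n then f ⟨i, h⟩ else d := by
  by_cases h : i < n
  · rw [dif_pos h, List.getD_eq_getElem _ _ (by simpa using h)]
    simp
  · rw [dif_neg h, List.getD_eq_default _ _ (by simpa using h)]

open scoped Classical in
theorem rep_rowsOf {n : ℕ} (G : SimpleGraph (Fin n)) : Rep (rowsOf G) G := by
  have h : ∀ i j, adjB (rowsOf G) i j = true ↔
      ∃ (hi : i < n) (hj : j < n), G.Adj ⟨i, hi⟩ ⟨j, hj⟩ := by
    intro i j
    unfold adjB rowsOf
    rw [getD_map_finRange]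
    by_cases hi : i < n
    · rw [dif_pos hi, getD_map_finRange]
      by_cases hj : j < n
      · rw [dif_pos hj, decide_eq_true_eq]
        exact ⟨fun h => ⟨hi, hj, h⟩, fun ⟨_, _, h⟩ => h⟩
      · rw [dif_neg hj]
        exact ⟨fun h => absurd h (by simp), fun ⟨_, h, _⟩ => absurd h hj⟩
    · rw [dif_neg hi]
      exact ⟨fun h => absurd h (by simp), fun ⟨h, _⟩ => absurd h hi⟩
  refine ⟨by unfold rowsOf; simp, ?_, ?_⟩
  · intro a b
    rw [h]
    exact ⟨fun ⟨_, _, h⟩ => h, fun h => ⟨a.2, b.2, h⟩⟩
  · intro i j hij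
    obtain ⟨hi, hj, -⟩ := (h i j).1 hij
    exact ⟨hi, hj⟩

/-! ### Correctness -/

theorem mat_of_rep {n : ℕ} {M : Rows} {G : SimpleGraph (Fin n)} (hM : Rep M G)
    (hI : NoI2 G (Equiv.refl _)) : Mat n (adjP M) := by
  have h : ∀ {i j}, adjP M i j → ∃ (hi : i < n) (hj : j < n), G.Adj ⟨i, hi⟩ ⟨j, hj⟩ := by
    intro i j hij
    obtain ⟨hi, hj⟩ := hM.out i j hij
    exact ⟨hi, hj, (hM.adj ⟨i, hi⟩ ⟨j, hj⟩).1 hij⟩
  refine ⟨?_, ?_, ?_, ?_⟩
  · intro i j hij
    obtain ⟨hi, hj, hG⟩ := h hij
    exact (hM.adj ⟨j, hj⟩ ⟨i, hi⟩).2 hG.symm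
  · intro i hii
    obtain ⟨hi, hj, hG⟩ := h hii
    exact G.loopless.irrefl _ hG
  · intro i j hij
    exact (h hij).1
  · intro i j k l hij hkl h1 h2
    obtain ⟨hi, hk, e1⟩ := h h1
    obtain ⟨hj, hl, e2⟩ := h h2
    by_contra hcon
    push Not at hcon
    refine hI ⟨i, hi⟩ ⟨j, hj⟩ ⟨k, hk⟩ ⟨l, hl⟩ hij hkl ⟨e1, e2, ?_, ?_⟩
    · exact fun h => hcon.1 ((hM.adj ⟨i, hi⟩ ⟨l, hl⟩).2 h)
    · exact fun h => hcon.2 ((hM.adj ⟨j, hj⟩ ⟨k, hk⟩).2 h)

theorem domSet_iff {n : ℕ} {M : Rows} {G : SimpleGraph (Fin n)} {σ : Equiv.Perm (Fin n)}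
    (hM : Rep M (G.comap σ)) (k : ℕ) :
    (∃ D : Finset ℕ, DomSet n (adjP M) D ∧ D.card ≤ k) ↔
      ∃ D : Finset (Fin n), IsDominating G D ∧ D.card ≤ k := by
  constructor
  · rintro ⟨D, hD, hk⟩
    refine ⟨(univ.filter (fun i : Fin n => i.1 ∈ D)).map σ.toEmbedding, ?_, ?_⟩
    · intro v
      rcases hD.2 (σ.symm v).1 (σ.symm v).2 with h | ⟨u, hu, h⟩
      · left
        refine mem_map.2 ⟨σ.symm v, mem_filter.2 ⟨mem_univ _, h⟩, ?_⟩
        simp
      · right
        have hu' : u < n := mem_range.1 (hD.1 hu)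
        refine ⟨σ ⟨u, hu'⟩, mem_map.2 ⟨⟨u, hu'⟩, mem_filter.2 ⟨mem_univ _, hu⟩, rfl⟩, ?_⟩
        have h1 := (hM.adj (σ.symm v) ⟨u, hu'⟩).1 h
        rw [SimpleGraph.comap_adj] at h1
        simpa using h1
    · rw [card_map]
      refine (card_le_card_of_injOn (fun i : Fin n => i.1) ?_ ?_).trans hk
      · intro i hi
        exact (mem_filter.1 hi).2
      · intro i _ j _ hij
        exact Fin.ext hij
  · rintro ⟨D, hD, hk⟩
    refine ⟨(D.map σ.symm.toEmbedding).map Fin.valEmbedding, ⟨?_, ?_⟩, ?_⟩
    · intro x hx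
      obtain ⟨i, -, rfl⟩ := mem_map.1 hx
      exact mem_range.2 i.2
    · intro v hv
      rcases hD (σ ⟨v, hv⟩) with h | ⟨u, hu, h⟩
      · left
        refine mem_map.2 ⟨⟨v, hv⟩, mem_map.2 ⟨σ ⟨v, hv⟩, h, ?_⟩, rfl⟩
        simp
      · right
        refine ⟨(σ.symm u).1, mem_map.2 ⟨σ.symm u, mem_map.2 ⟨u, hu, rfl⟩, rfl⟩, ?_⟩
        refine (hM.adj ⟨v, hv⟩ (σ.symm u)).2 ?_
        rw [SimpleGraph.comap_adj]
        simpa using h
    · rw [card_map, card_map]
      exact hk

theorem domB_correct' {n : ℕ} {M : Rows} (hlen : M.length = n) (hM : Mat n (adjP M)) (k : ℕ) :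
    domB M k = true ↔ ∃ D : Finset ℕ, DomSet n (adjP M) D ∧ D.card ≤ k := by
  subst hlen
  exact domB_correct targetSound targetComplete hM k

/-- Correctness of the decision procedure. -/
theorem algB_correct {n : ℕ} (G : SimpleGraph (Fin n)) (k : ℕ) :
    algB (rowsOf G, k) = true ↔
      IsStrong G ∧ ∃ D : Finset (Fin n), IsDominating G D ∧ D.card ≤ k := by
  have hM := rep_rowsOf G
  obtain ⟨σ, hσ, hσ'⟩ := exists_perm hM
  have hM' := re_rep hM hσ
  have hI : NoI2 (G.comap σ) (Equiv.refl _) ↔ NoI2 G σ := Iff.rfl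
  unfold algB
  rw [Bool.and_eq_true]
  show (i2B (reB (rowsOf G) (ordL (rowsOf G))) = true ∧
    domB (reB (rowsOf G) (ordL (rowsOf G))) k = true) ↔ _
  rw [i2B_iff hM', hI]
  constructor
  · rintro ⟨h1, h2⟩
    refine ⟨⟨σ, h1⟩, ?_⟩
    have h3 := mat_of_rep hM' (hI.2 h1)
    exact (domSet_iff hM' k).1 ((domB_correct' hM'.len h3 k).1 h2)
  · rintro ⟨h1, h2⟩
    have h5 : NoI2 G σ := noI2_of_key hM (lin_of_strong h1) hσ'
    refine ⟨h5, ?_⟩
    have h3 := mat_of_rep hM' (hI.2 h5)
    exact (domB_correct' hM'.len h3 k).2 ((domSet_iff hM' k).2 h2)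

/-! ### The encoding -/

/-- One step of the parser: digits read, rows read (reversed). -/
def pstep (s : List Bool × Rows) (c : Sym) : List Bool × Rows :=
  cond (decide (c = Sym.b0)) (false :: s.1, s.2)
    (cond (decide (c = Sym.b1)) (true :: s.1, s.2)
      (cond (decide (c = Sym.comma)) ([], s.1.reverse :: s.2)
        (cond (decide (c = Sym.semi)) ([], s.2) s)))

/-- The parser. -/
def parse (w : List Sym) : Rows × ℕ :=
  ((w.foldl pstep ([], [])).2.reverse, val (w.foldl pstep ([], [])).1)

theorem foldl_bits (l : List Bool) (o : List Bool) (R : Rows) :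
    (l.map (fun b => if b then Sym.b1 else Sym.b0)).foldl pstep (o, R) = (l.reverse ++ o, R) := by
  induction l generalizing o with
  | nil => rfl
  | cons b l ih =>
    rw [List.map_cons, List.foldl_cons]
    have : pstep (o, R) (if b = true then Sym.b1 else Sym.b0) = (b :: o, R) := by
      cases b <;> simp [pstep]
    rw [this, ih]
    simp

open scoped Classical in
theorem foldl_row {n : ℕ} (G : SimpleGraph (Fin n)) (i : Fin n) (R : Rows) :
    (encRow G i).foldl pstep ([], R) =
      ([], ((List.finRange n).map (fun j => decide (G.Adj i j))) :: R) := by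
  have h : (List.finRange n).map (fun j => if G.Adj i j then Sym.b1 else Sym.b0) =
      ((List.finRange n).map (fun j => decide (G.Adj i j))).map
        (fun b => if b then Sym.b1 else Sym.b0) := by
    rw [List.map_map]
    refine List.map_congr_left fun j _ => ?_
    simp
  unfold encRow
  rw [h, List.foldl_append, foldl_bits, List.foldl_cons, List.foldl_nil]
  simp [pstep]

open scoped Classical in
theorem foldl_rows {n : ℕ} (G : SimpleGraph (Fin n)) (l : List (Fin n)) (R : Rows) :
    (l.flatMap (encRow G)).foldl pstep ([], R) =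
      ([], (l.map (fun i => (List.finRange n).map (fun j => decide (G.Adj i j)))).reverse ++ R) := by
  induction l generalizing R with
  | nil => rfl
  | cons i l ih =>
    rw [List.flatMap_cons, List.foldl_append, foldl_row, ih]
    simp

open scoped Classical in
theorem parse_encInst (q : Inst) : parse (encInst q) = (rowsOf q.2.1, q.2.2) := by
  have h : (encInst q).foldl pstep ([], []) = (q.2.2.bits, (rowsOf q.2.1).reverse) := by
    unfold encInst rowsOf
    rw [List.foldl_append, foldl_rows, List.foldl_cons]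
    unfold encNat
    have : pstep ([], ((List.finRange q.1).map (fun i => (List.finRange q.1).map
        (fun j => decide (q.2.1.Adj i j)))).reverse ++ []) Sym.semi =
        ([], ((List.finRange q.1).map (fun i => (List.finRange q.1).map
        (fun j => decide (q.2.1.Adj i j)))).reverse ++ []) := by simp [pstep]
    rw [this, foldl_bits]
    simp
  unfold parse
  rw [h]
  simp only [List.reverse_reverse, val_bits]

theorem rowsOf_injective {n : ℕ} {G G' : SimpleGraph (Fin n)} (h : rowsOf G = rowsOf G') :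
    G = G' := by
  ext a b
  rw [← (rep_rowsOf G).adj, ← (rep_rowsOf G').adj, h]

theorem encInst_injective : Function.Injective encInst := by
  rintro ⟨n, G, k⟩ ⟨n', G', k'⟩ h
  have h1 := parse_encInst ⟨n, G, k⟩
  rw [h, parse_encInst] at h1
  simp only [Prod.mk.injEq] at h1
  obtain ⟨h1, rfl⟩ := h1
  have hn : n' = n := by
    have := congrArg List.length h1
    rwa [(rep_rowsOf G').len, (rep_rowsOf G).len] at this
  subst hn
  rw [rowsOf_injective h1]

section

variable [hC : Fact Core]

theorem parse_pt : PolyF parse := by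
  have hfold : PolyF (fun w : List Sym => w.foldl pstep ([], [])) := by
    refine PolyF.foldl (f := fun (_ : List Sym) s c => pstep s c) ?_ (by fun_prop) (by fun_prop)
      (fun w => 8 * sz w + 10) (((PolyB.const 8).mul PolyB.sz).add (PolyB.const 10)) ?_
    · unfold pstep
      fun_prop
    · intro w l₁ hl₁
      have key : ∀ (l : List Sym) (s : List Bool × Rows),
          sz (l.foldl (fun s c => pstep s c) s) ≤ sz s + 4 * l.length := by
        intro l
        induction l with
        | nil => intro s; simp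
        | cons c l ih =>
          intro s
          rw [List.foldl_cons]
          refine (ih _).trans ?_
          have h1 : sz (pstep s c) ≤ sz s + 4 := by
            obtain ⟨o, R⟩ := s
            have e1 : sz false = 1 := rfl
            have e2 : sz true = 3 := rfl
            have e3 := sz_pos o
            have e4 := sz_reverse o
            have e5 : sz ([] : List Bool) = 1 := rfl
            unfold pstep
            cases decide (c = Sym.b0) <;> cases decide (c = Sym.b1) <;>
              cases decide (c = Sym.comma) <;> cases decide (c = Sym.semi) <;>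
              simp only [cond_true, cond_false, sz_pair, sz_cons] <;> omega
          rw [List.length_cons]
          omega
      have h1 := key l₁ ([], [])
      have h2 := length_lt_sz l₁
      have h3 := sz_le_of_prefix hl₁
      have h4 : sz (([], []) : List Bool × Rows) = 3 := rfl
      omega
  unfold parse
  fun_prop

/-- The decision procedure on strings. -/
theorem algStr_pt : PolyF (fun w : List Sym => encBool (algB (parse w))) := by
  have h1 : PolyF (fun w : List Sym => algB (parse w)) := (algB_pt (hC := hC)).comp parse_pt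
  unfold encBool
  fun_prop

/-- The main theorem. -/
theorem main : Function.Injective encInst ∧ ∃ f : Inst → Bool,
    Nonempty (Turing.TM2ComputableInPolyTime encInst encBool f) ∧
    ∀ (n : ℕ) (G : SimpleGraph (Fin n)) (k : ℕ), f ⟨n, G, k⟩ = true ↔
      IsStrong G ∧ ∃ D : Finset (Fin n), IsDominating G D ∧ D.card ≤ k := by
  refine ⟨encInst_injective, fun q => algB (rowsOf q.2.1, q.2.2),
    tm_of_polyF algStr_pt encInst encBool _ ?_, fun n G k => algB_correct G k⟩
  intro q
  show encBool (algB (parse (encInst q))) = _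
  rw [parse_encInst]

end

end Pool.Agent.SCG
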