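import Pool.Agent.SCG.Sort

/-!
# The table of the search
-/

set_option autoImplicit false

namespace Pool.Agent.SCG

/-- The adjacency relation of a matrix. -/
def adjP (M : Rows) (i j : ℕ) : Prop := adjB M i j = true

theorem mem_allSta {N : List ℕ} {m q r c a b : ℕ} :
    (m, q, r, c, a, b) ∈ allSta N ↔ m ∈ N ∧ q ∈ N ∧ r ∈ N ∧ c ∈ N ∧ a ∈ N ∧ b ∈ N := by
  unfold allSta
  simp only [List.mem_flatMap, List.mem_map, Prod.mk.injEq]
  constructor
  · rintro ⟨m', h1, q', h2, r', h3, c', h4, a', h5, b', h6, rfl, rfl, rfl, rfl, rfl, rfl⟩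
    exact ⟨h1, h2, h3, h4, h5, h6⟩
  · rintro ⟨h1, h2, h3, h4, h5, h6⟩
    exact ⟨m, h1, q, h2, r, h3, c, h4, a, h5, b, h6, rfl, rfl, rfl, rfl, rfl, rfl⟩

theorem hitB_iff {M : Rows} {m a b v : ℕ} : hitB M m a b v = true ↔ Hit (adjP M) m a b v := by
  unfold hitB Hit adjP
  simp only [Bool.or_eq_true, decide_eq_true_eq, or_assoc]

theorem startB_iff {n m q r c a b : ℕ} : startB n (m, q, r, c, a, b) = true ↔
    ((m = n ∧ q = 0) ∨ (m < n ∧ q = 1)) ∧ r = 0 ∧ c = 0 ∧ a = n ∧ b = n := by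
  unfold startB
  simp only [Bool.or_eq_true, Bool.and_eq_true, decide_eq_true_eq, and_assoc]

theorem stepB_iff {M : Rows} {m q r c a b m' q' r' c' a' b' : ℕ} :
    stepB M (m, q, r, c, a, b) (m', q', r', c', a', b') = true ↔
    m' = m ∧
    ((((q' = q + 1 ∧ r' = r ∧ c' = c ∧ a' < M.length ∧ b' = b) ∨
      (q' = q + 1 ∧ r' = r ∧ c' = c ∧ a' = a ∧ b' < M.length)) ∨
      (r + c < M.length ∧ r' = r + 1 ∧ c' = c ∧ a' = a ∧ b' = b ∧
        ((q' = q ∧ Hit (adjP M) m a b r) ∨ q' = q + 1))) ∨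
      (r + c < M.length ∧ r' = r ∧ c' = c + 1 ∧ a' = a ∧ b' = b ∧
        ((q' = q ∧ ∃ w, w < M.length ∧ w + c + 1 = M.length ∧ Hit (adjP M) m a b w) ∨
          q' = q + 1))) := by
  unfold stepB
  simp only [Bool.or_eq_true, Bool.and_eq_true, decide_eq_true_eq, List.any_eq_true, hitB_iff,
    mem_vts, and_assoc]

theorem nextB_iff {M : Rows} {S : List Sta} {t : Sta} : nextB M S t = true ↔
    startB M.length t = true ∨ t ∈ S ∨ ∃ s ∈ S, stepB M s t = true := by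
  unfold nextB
  simp only [Bool.or_eq_true, memL_iff, List.any_eq_true, or_assoc]

theorem reach_bounds {n : ℕ} {A : ℕ → ℕ → Prop} {m q r c a b : ℕ} (h : Reach n A m q r c a b) :
    m ≤ n ∧ r + c ≤ n ∧ a ≤ n ∧ b ≤ n := by
  induction h with
  | start0 h => exact ⟨by omega, by omega, le_refl _, le_refl _⟩
  | start1 h => exact ⟨by omega, by omega, le_refl _, le_refl _⟩
  | setA _ h ih => exact ⟨ih.1, ih.2.1, by omega, ih.2.2.2⟩
  | setB _ h ih => exact ⟨ih.1, ih.2.1, ih.2.2.1, by omega⟩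
  | left _ h _ ih => exact ⟨ih.1, by omega, ih.2.2.1, ih.2.2.2⟩
  | leftPay _ h ih => exact ⟨ih.1, by omega, ih.2.2.1, ih.2.2.2⟩
  | right _ h _ _ ih => exact ⟨ih.1, by omega, ih.2.2.1, ih.2.2.2⟩
  | rightPay _ h ih => exact ⟨ih.1, by omega, ih.2.2.1, ih.2.2.2⟩

theorem reachL_sound {M : Rows} {m q r c a b : ℕ} (h : (m, q, r, c, a, b) ∈ reachL M) :
    Reach M.length (adjP M) m q r c a b := by
  let T : Sta → Prop := fun s =>
    Reach M.length (adjP M) s.1 s.2.1 s.2.2.1 s.2.2.2.1 s.2.2.2.2.1 s.2.2.2.2.2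
  have key : ∀ s ∈ reachL M, T s := by
    unfold reachL
    refine iter_least T ?_ (by simp)
    rintro S hS ⟨m', q', r', c', a', b'⟩ - h
    rw [nextB_iff] at h
    rcases h with h | h | ⟨⟨m, q, r, c, a, b⟩, hs, h⟩
    · rw [startB_iff] at h
      obtain ⟨h | h, rfl, rfl, rfl, rfl⟩ := h
      · obtain ⟨rfl, rfl⟩ := h
        exact Reach.start0 rfl
      · obtain ⟨h, rfl⟩ := h
        exact Reach.start1 h
    · exact hS _ h
    · rw [stepB_iff] at h
      have h0 : Reach M.length (adjP M) m q r c a b := hS _ hs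
      obtain ⟨rfl, ((⟨rfl, rfl, rfl, h1, rfl⟩ | ⟨rfl, rfl, rfl, rfl, h1⟩) |
        ⟨h1, rfl, rfl, rfl, rfl, ⟨rfl, h2⟩ | rfl⟩) |
        ⟨h1, rfl, rfl, rfl, rfl, ⟨rfl, w, hw, h2, h3⟩ | rfl⟩⟩ := h
      · exact Reach.setA h0 h1
      · exact Reach.setB h0 h1
      · exact Reach.left h0 h1 h2
      · exact Reach.leftPay h0 h1
      · exact Reach.right h0 h1 h2 h3
      · exact Reach.rightPay h0 h1
  exact key _ h

theorem reachL_complete {M : Rows} {m q r c a b : ℕ} (h : Reach M.length (adjP M) m q r c a b)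
    (hq : q ≤ M.length) : (m, q, r, c, a, b) ∈ reachL M := by
  have hext : ∀ (S : List Sta) (s : Sta), s ∈ S → nextB M S s = true :=
    fun S s h => nextB_iff.2 (Or.inr (Or.inl h))
  have hU : ∀ {m q r c a b : ℕ}, Reach M.length (adjP M) m q r c a b → q ≤ M.length →
      (m, q, r, c, a, b) ∈ allSta (List.range (([] : List Bool) :: M).length) := by
    intro m q r c a b h hq
    have := reach_bounds h
    rw [mem_allSta]
    simp only [List.mem_range, List.length_cons]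
    omega
  induction h with
  | start0 h =>
    refine iter_closed hext (hU (Reach.start0 h) hq) (nextB_iff.2 (Or.inl ?_))
    rw [startB_iff]
    exact ⟨Or.inl ⟨h, rfl⟩, rfl, rfl, rfl, rfl⟩
  | start1 h =>
    refine iter_closed hext (hU (Reach.start1 h) hq) (nextB_iff.2 (Or.inl ?_))
    rw [startB_iff]
    exact ⟨Or.inr ⟨h, rfl⟩, rfl, rfl, rfl, rfl⟩
  | setA h0 h ih =>
    refine iter_closed hext (hU (Reach.setA h0 h) hq)
      (nextB_iff.2 (Or.inr (Or.inr ⟨_, ih (by omega), ?_⟩)))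
    rw [stepB_iff]
    exact ⟨rfl, Or.inl (Or.inl (Or.inl ⟨rfl, rfl, rfl, h, rfl⟩))⟩
  | setB h0 h ih =>
    refine iter_closed hext (hU (Reach.setB h0 h) hq)
      (nextB_iff.2 (Or.inr (Or.inr ⟨_, ih (by omega), ?_⟩)))
    rw [stepB_iff]
    exact ⟨rfl, Or.inl (Or.inl (Or.inr ⟨rfl, rfl, rfl, rfl, h⟩))⟩
  | left h0 h h2 ih =>
    refine iter_closed hext (hU (Reach.left h0 h h2) hq)
      (nextB_iff.2 (Or.inr (Or.inr ⟨_, ih (by omega), ?_⟩)))
    rw [stepB_iff]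
    exact ⟨rfl, Or.inl (Or.inr ⟨h, rfl, rfl, rfl, rfl, Or.inl ⟨rfl, h2⟩⟩)⟩
  | leftPay h0 h ih =>
    refine iter_closed hext (hU (Reach.leftPay h0 h) hq)
      (nextB_iff.2 (Or.inr (Or.inr ⟨_, ih (by omega), ?_⟩)))
    rw [stepB_iff]
    exact ⟨rfl, Or.inl (Or.inr ⟨h, rfl, rfl, rfl, rfl, Or.inr rfl⟩)⟩
  | right h0 h h2 h3 ih =>
    refine iter_closed hext (hU (Reach.right h0 h h2 h3) hq)
      (nextB_iff.2 (Or.inr (Or.inr ⟨_, ih (by omega), ?_⟩)))
    rw [stepB_iff]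
    exact ⟨rfl, Or.inr ⟨h, rfl, rfl, rfl, rfl, Or.inl ⟨rfl, _, by omega, h2, h3⟩⟩⟩
  | rightPay h0 h ih =>
    refine iter_closed hext (hU (Reach.rightPay h0 h) hq)
      (nextB_iff.2 (Or.inr (Or.inr ⟨_, ih (by omega), ?_⟩)))
    rw [stepB_iff]
    exact ⟨rfl, Or.inr ⟨h, rfl, rfl, rfl, rfl, Or.inr rfl⟩⟩

theorem domB_iff {M : Rows} {k : ℕ} : domB M k = true ↔
    ∃ m q r c a b : ℕ, (m, q, r, c, a, b) ∈ reachL M ∧ r + c = M.length ∧ q ≤ k := by
  unfold domB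
  simp only [List.any_eq_true, Bool.and_eq_true, decide_eq_true_eq]
  constructor
  · rintro ⟨⟨m, q, r, c, a, b⟩, h1, h2, h3⟩
    exact ⟨m, q, r, c, a, b, h1, h2, h3⟩
  · rintro ⟨m, q, r, c, a, b, h1, h2, h3⟩
    exact ⟨⟨m, q, r, c, a, b⟩, h1, h2, h3⟩

/-- Correctness of the search, from the two targets. -/
theorem domB_correct (hS : TargetSound) (hC : TargetComplete) {M : Rows}
    (hM : Mat M.length (adjP M)) (k : ℕ) :
    domB M k = true ↔ ∃ D : Finset ℕ, DomSet M.length (adjP M) D ∧ D.card ≤ k := by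
  rw [domB_iff]
  constructor
  · rintro ⟨m, q, r, c, a, b, h1, h2, h3⟩
    obtain ⟨D, hD, hD'⟩ := hS _ _ hM _ _ _ _ _ _ (reachL_sound h1) h2
    exact ⟨D, hD, hD'.trans h3⟩
  · rintro ⟨D, hD, hk⟩
    obtain ⟨m, q, r, c, a, b, h1, h2, h3, h4⟩ := hC _ _ hM D hD
    have h5 : D.card ≤ M.length := by
      have := Finset.card_le_card hD.1
      rwa [Finset.card_range] at this
    exact ⟨m, q, r, c, a, b, reachL_complete h4 (by omega), h3, by omega⟩

end Pool.Agent.SCG
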