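import Pool.Agent.SCG.Decs

/-!
# The list of the vertices in order
-/

set_option autoImplicit false

namespace Pool.Agent.SCG

variable {n : ℕ}

theorem countP_lt {α : Type} {f g : α → Bool} {l : List α} (h : ∀ u ∈ l, f u = true → g u = true)
    {x : α} (hx : x ∈ l) (hf : ¬ f x = true) (hg : g x = true) :
    l.countP f < l.countP g := by
  induction l with
  | nil => simp at hx
  | cons a l ih =>
    have h1 : l.countP f ≤ l.countP g :=
      List.countP_mono_left fun u hu => h u (List.mem_cons_of_mem _ hu)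
    rw [List.countP_cons, List.countP_cons]
    rcases List.mem_cons.1 hx with rfl | hx
    · rw [if_neg hf, if_pos hg]; omega
    · have h2 := ih (fun u hu => h u (List.mem_cons_of_mem _ hu)) hx
      have h3 := h a List.mem_cons_self
      by_cases hfa : f a = true
      · rw [if_pos hfa, if_pos (h3 hfa)]; omega
      · rw [if_neg hfa]
        split_ifs <;> omega

section

variable {M : Rows} {G : SimpleGraph (Fin n)} (hM : Rep M G)

include hM

theorem key_lt (v : ℕ) (hv : v < n) : key M (decs M) v < n := by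
  unfold key
  have h1 : (vts M).countP (fun u => memL (decs M) (u, v)) <
      (vts M).countP (fun _ => true) := by
    refine countP_lt (fun _ _ _ => rfl) (x := v) ?_ ?_ rfl
    · rw [mem_vts, hM.len]; exact hv
    · rw [memL_iff]
      exact (decs_good hM).irr ⟨v, hv⟩
  rw [List.countP_true] at h1
  unfold vts at h1 ⊢
  rw [List.length_range, hM.len] at h1
  rw [hM.len]
  exact h1

theorem key_mono {a b : Fin n} (h : rel (decs M) a b) :
    key M (decs M) a.1 < key M (decs M) b.1 := by
  unfold key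
  refine countP_lt ?_ (x := a.1) ?_ ?_ ?_
  · intro u hu h1
    rw [mem_vts, hM.len] at hu
    rw [memL_iff] at h1 ⊢
    exact (decs_good hM).trans (a := ⟨u, hu⟩) h1 h
  · rw [mem_vts, hM.len]; exact a.2
  · rw [memL_iff]
    exact (decs_good hM).irr a
  · rw [memL_iff]; exact h

theorem mem_ordL {v : ℕ} : v ∈ ordL M ↔ v < n := by
  unfold ordL
  simp only [List.mem_flatMap, List.mem_filter, mem_vts, hM.len, decide_eq_true_eq]
  constructor
  · rintro ⟨k, _, h, _⟩; exact h
  · intro h
    exact ⟨_, key_lt hM v h, h, rfl⟩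

omit hM in
theorem ordL_nodup : (ordL M).Nodup := by
  unfold ordL
  rw [List.nodup_flatMap]
  refine ⟨fun k _ => (List.nodup_range).filter _, ?_⟩
  have h1 : (vts M).Nodup := List.nodup_range
  refine h1.imp ?_
  intro k l hkl x hx hy
  simp only [List.mem_filter, decide_eq_true_eq] at hx hy
  exact hkl (hx.2.symm.trans hy.2)

omit hM in
theorem ordL_pairwise :
    (ordL M).Pairwise (fun a b => key M (decs M) a ≤ key M (decs M) b) := by
  unfold ordL
  rw [List.pairwise_flatMap]
  constructor
  · intro k _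
    rw [List.pairwise_iff_forall_sublist]
    intro a b hab
    have ha : a ∈ (vts M).filter (fun v => decide (key M (decs M) v = k)) :=
      hab.subset (by simp)
    have hb : b ∈ (vts M).filter (fun v => decide (key M (decs M) v = k)) :=
      hab.subset (by simp)
    simp only [List.mem_filter, decide_eq_true_eq] at ha hb
    rw [ha.2, hb.2]
  · have h1 : (vts M).Pairwise (· < ·) := List.pairwise_lt_range
    refine h1.imp ?_
    intro k l hkl x hx y hy
    simp only [List.mem_filter, decide_eq_true_eq] at hx hy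
    rw [hx.2, hy.2]
    omega

theorem ordL_length : (ordL M).length = n := by
  have h1 : (ordL M).Perm (List.range n) := by
    rw [List.perm_ext_iff_of_nodup ordL_nodup List.nodup_range]
    intro a
    rw [mem_ordL hM, List.mem_range]
  rw [h1.length_eq, List.length_range]

/-- The ordering. -/
theorem exists_perm : ∃ σ : Equiv.Perm (Fin n), (∀ i : Fin n, (σ i).1 = (ordL M).getD i.1 n) ∧
    ∀ i j : Fin n, i < j → key M (decs M) (σ i).1 ≤ key M (decs M) (σ j).1 := by
  have hlen := ordL_length hM
  have hget : ∀ i : Fin n, (ordL M).getD i.1 n < n := by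
    intro i
    have hi : i.1 < (ordL M).length := by rw [hlen]; exact i.2
    rw [List.getD_eq_getElem _ _ hi]
    exact (mem_ordL hM).1 (List.getElem_mem hi)
  let f : Fin n → Fin n := fun i => ⟨(ordL M).getD i.1 n, hget i⟩
  have hf : Function.Injective f := by
    intro i j hij
    have h1 : (ordL M).getD i.1 n = (ordL M).getD j.1 n := congrArg Fin.val hij
    have hi : i.1 < (ordL M).length := by rw [hlen]; exact i.2
    have hj : j.1 < (ordL M).length := by rw [hlen]; exact j.2
    rw [List.getD_eq_getElem _ _ hi, List.getD_eq_getElem _ _ hj] at h1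
    exact Fin.ext (ordL_nodup.getElem_inj_iff.1 h1)
  refine ⟨Equiv.ofBijective f (Finite.injective_iff_bijective.1 hf), fun i => rfl, ?_⟩
  intro i j hij
  have hi : i.1 < (ordL M).length := by rw [hlen]; exact i.2
  have hj : j.1 < (ordL M).length := by rw [hlen]; exact j.2
  have h1 := (List.pairwise_iff_getElem.1 ordL_pairwise) i.1 j.1 hi hj hij
  show key M (decs M) ((ordL M).getD i.1 n) ≤ key M (decs M) ((ordL M).getD j.1 n)
  rw [List.getD_eq_getElem _ _ hi, List.getD_eq_getElem _ _ hj]
  exact h1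

/-- The ordering found by the algorithm has no `I₂` if there is any such ordering. -/
theorem noI2_of_key (hL : ∃ L, Lin G L) {σ : Equiv.Perm (Fin n)}
    (hσ : ∀ i j : Fin n, i < j → key M (decs M) (σ i).1 ≤ key M (decs M) (σ j).1) :
    NoI2 G σ := by
  rintro i j k l hij hkl ⟨h1, h2, h3, h4⟩
  have hG : Gam G (σ i) (σ j) (σ l) (σ k) := ⟨h1, h4, h2, h3⟩
  have hH : Hp G (σ i) (σ j) := ⟨⟨σ k, h1, h4⟩, ⟨σ l, h2, h3⟩⟩
  rcases decs_total hM hL hH with h | h
  · have h5 := (decs_good hM).gam h hG
    have h6 := key_mono hM h5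
    have h7 := hσ k l hkl
    omega
  · have h6 := key_mono hM h
    have h7 := hσ i j hij
    omega

/-- The reordered matrix. -/
theorem re_rep {σ : Equiv.Perm (Fin n)} (hσ : ∀ i : Fin n, (σ i).1 = (ordL M).getD i.1 n) :
    Rep (reB M (ordL M)) (G.comap σ) := by
  have hlen := ordL_length hM
  have hrow : ∀ i (hi : i < n), (reB M (ordL M)).getD i [] =
      (ordL M).map (fun j => adjB M (σ ⟨i, hi⟩).1 j) := by
    intro i hi
    have hi2 : i < (ordL M).length := by rw [hlen]; exact hi
    have hi' : i < ((ordL M).map (fun i => (ordL M).map (fun j => adjB M i j))).length := by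
      rw [List.length_map]; exact hi2
    unfold reB
    rw [List.getD_eq_getElem _ _ hi', List.getElem_map, hσ ⟨i, hi⟩,
      List.getD_eq_getElem _ _ hi2]
  have hent : ∀ i (hi : i < n) j (hj : j < n), adjB (reB M (ordL M)) i j =
      adjB M (σ ⟨i, hi⟩).1 (σ ⟨j, hj⟩).1 := by
    intro i hi j hj
    have hj2 : j < (ordL M).length := by rw [hlen]; exact hj
    have hj' : j < ((ordL M).map (fun j => adjB M (σ ⟨i, hi⟩).1 j)).length := by
      rw [List.length_map]; exact hj2
    unfold adjB
    rw [hrow i hi, List.getD_eq_getElem _ _ hj', List.getElem_map, hσ ⟨j, hj⟩,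
      List.getD_eq_getElem _ _ hj2]
    rfl
  refine ⟨?_, ?_, ?_⟩
  · unfold reB; rw [List.length_map, hlen]
  · intro a b
    rw [hent a.1 a.2 b.1 b.2, hM.adj, SimpleGraph.comap_adj]
  · intro i j h
    have h1 : i < n := by
      by_contra hcon
      have h2 : (reB M (ordL M)).getD i [] = [] := by
        rw [List.getD_eq_default]
        unfold reB; rw [List.length_map, hlen]; omega
      unfold adjB at h
      rw [h2] at h
      simp at h
    refine ⟨h1, ?_⟩
    by_contra hcon
    have h3 : ((reB M (ordL M)).getD i []).getD j false = false := by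
      rw [hrow i h1, List.getD_eq_default]
      rw [List.length_map, hlen]; omega
    unfold adjB at h
    rw [h3] at h
    simp at h

end

/-- The check for `I₂`. -/
theorem i2B_iff {M : Rows} {G : SimpleGraph (Fin n)} (hM : Rep M G) :
    i2B M = true ↔ NoI2 G (Equiv.refl _) := by
  unfold i2B NoI2
  simp only [List.all_eq_true, mem_vts, hM.len, Bool.not_eq_true', ← Bool.not_eq_true,
    Bool.and_eq_true, decide_eq_true_eq, Equiv.refl_apply]
  constructor
  · intro h i j k l hij hkl ⟨h1, h2, h3, h4⟩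
    refine h i.1 i.2 j.1 j.2 k.1 k.2 l.1 l.2 ?_
    refine ⟨⟨⟨⟨⟨hij, hkl⟩, (hM.adj i k).2 h1⟩, (hM.adj j l).2 h2⟩, fun h => h3 ((hM.adj i l).1 h)⟩,
      fun h => h4 ((hM.adj j k).1 h)⟩
  · intro h i hi j hj k hk l hl ⟨⟨⟨⟨⟨hij, hkl⟩, h1⟩, h2⟩, h3⟩, h4⟩
    refine h ⟨i, hi⟩ ⟨j, hj⟩ ⟨k, hk⟩ ⟨l, hl⟩ hij hkl ?_
    exact ⟨(hM.adj ⟨i, hi⟩ ⟨k, hk⟩).1 h1, (hM.adj ⟨j, hj⟩ ⟨l, hl⟩).1 h2,
      fun h => h3 ((hM.adj ⟨i, hi⟩ ⟨l, hl⟩).2 h), fun h => h4 ((hM.adj ⟨j, hj⟩ ⟨k, hk⟩).2 h)⟩

/-- Orderings without `I₂` as linear orders. -/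
theorem lin_of_strong {G : SimpleGraph (Fin n)} (h : IsStrong G) : ∃ L, Lin G L := by
  obtain ⟨σ, hσ⟩ := h
  refine ⟨fun a b => σ.symm a < σ.symm b, ?_, fun h h' => h.trans h', fun a => lt_irrefl _, ?_⟩
  · intro a b d c hab hG
    obtain ⟨h1, h2, h3, h4⟩ := hG
    by_contra hcon
    rcases (not_lt.1 hcon).lt_or_eq with h | h
    · refine hσ (σ.symm a) (σ.symm b) (σ.symm c) (σ.symm d) hab h ?_
      simp only [Equiv.apply_symm_apply]
      exact ⟨h1, h3, h4, h2⟩
    · have : c = d := σ.symm.injective h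
      subst this
      exact h4 h1
  · intro a b hab
    rcases lt_trichotomy (σ.symm a) (σ.symm b) with h | h | h
    · exact Or.inl h
    · exact absurd (σ.symm.injective h) hab
    · exact Or.inr h

end Pool.Agent.SCG
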