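import Pool.Agent.PT.Defs

/-!
# Domination on strong comparability graphs: the definitions used in the statement
-/

set_option autoImplicit false

open Finset

namespace Pool.Agent.SCG

open Pool.Agent.PT (Sym)

/-! ## The problem -/

/-- The ordering `σ 0 < σ 1 < ...` of the vertices has no `I₂` submatrix. -/
def NoI2 {n : ℕ} (G : SimpleGraph (Fin n)) (σ : Equiv.Perm (Fin n)) : Prop :=
  ∀ i j k l : Fin n, i < j → k < l →
    ¬ (G.Adj (σ i) (σ k) ∧ G.Adj (σ j) (σ l) ∧ ¬ G.Adj (σ i) (σ l) ∧ ¬ G.Adj (σ j) (σ k))

/-- Strong comparability graphs. -/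
def IsStrong {n : ℕ} (G : SimpleGraph (Fin n)) : Prop := ∃ σ : Equiv.Perm (Fin n), NoI2 G σ

/-- Dominating sets. -/
def IsDominating {n : ℕ} (G : SimpleGraph (Fin n)) (D : Finset (Fin n)) : Prop :=
  ∀ v, v ∈ D ∨ ∃ u ∈ D, G.Adj v u

/-! ## Instances as strings -/

/-- Instances: a graph on `0, ..., n-1` and a number. -/
abbrev Inst : Type := Σ n : ℕ, SimpleGraph (Fin n) × ℕ

/-- Binary digits, most significant first. -/
def encNat (n : ℕ) : List Sym := n.bits.reverse.map (fun b => if b then Sym.b1 else Sym.b0)

open scoped Classical in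
/-- The row of a vertex in the adjacency matrix, followed by a comma. -/
noncomputable def encRow {n : ℕ} (G : SimpleGraph (Fin n)) (i : Fin n) : List Sym :=
  (List.finRange n).map (fun j => if G.Adj i j then Sym.b1 else Sym.b0) ++ [Sym.comma]

/-- The string of an instance: the rows of the adjacency matrix, a semicolon, the number. -/
noncomputable def encInst (q : Inst) : List Sym :=
  (List.finRange q.1).flatMap (encRow q.2.1) ++ Sym.semi :: encNat q.2.2

/-- The answer. -/
def encBool (b : Bool) : List Sym := [if b then Sym.b1 else Sym.b0]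

end Pool.Agent.SCG
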